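import Pool.Agent.SKZ.Main

/-!
# The bijection, and its naturality
-/

set_option autoImplicit false
set_option linter.all false

universe u

namespace Pool.Agent.SKZ

open CKS

theorem Fam.ext' {k : Type u} [Field k] {V E : Type} {G : CKS.Graph V E} {Reg : V → Prop}
    {A : Type*} [Ring A] [Algebra k A] {F F' : Fam k G Reg A} (hp : ∀ a, F.p a = F'.p a)
    (hx : ∀ e, F.x e = F'.x e) (hy : ∀ e, F.y e = F'.y e) : F = F' := by
  have h1 : F.p = F'.p := funext hp
  have h2 : F.x = F'.x := funext hx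
  have h3 : F.y = F'.y := funext hy
  cases F; cases F'; simp_all

section Fwd

variable {k : Type u} [Field k] {A : Type*} [Ring A] [Algebra k A] (F : Fam k Gm Gm.IsReg A)
  (u : Aˣ)

/-- the structure given by a family and a unit -/
def fwd : S1 A :=
  toS (mi F) ((mi F).t * u) (↑u⁻¹ * (mi F).t')
    (by rw [mul_assoc, ← mul_assoc (mi F).t', Mi.ti_t, one_mul, Units.inv_mul])
    (by rw [mul_assoc, ← mul_assoc (u : A), Units.mul_inv, one_mul, Mi.t_ti])

theorem fwd_rr : (fwd F u).r * (fwd F u).r' = F.p (.inr 1) := by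
  show (mi F).t * u * (↑u⁻¹ * (mi F).t') = (mi F).q
  rw [mul_assoc, ← mul_assoc (u : A), Units.mul_inv, one_mul, Mi.t_ti]

theorem back_fwd : back k (fwd F u).L (fwd F u).M = F := by
  have hr := fwd_rr F u
  refine Fam.ext' (fun a => ?_) (fun e => ?_) (fun e => ?_)
  · rw [back_p]
    rcases a with a | a <;> fin_cases a
    · rfl
    · exact w_fw F
    · exact hr
  · rw [back_x]
    rcases e with e | e <;> fin_cases e
    · rfl
    · rfl
    · show fw F * (fw F * fw' F) = F.x (.inr 0)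
      rw [w_fw]
      simp [fw, add_mul, xp, splice, G2]
    · show (fwd F u).r * ((fwd F u).r' * (F.x (.inr 1) * (fwd F u).r) * (fwd F u).r') = F.x (.inr 1)
      rw [show (fwd F u).r * ((fwd F u).r' * (F.x (.inr 1) * (fwd F u).r) * (fwd F u).r') =
        ((fwd F u).r * (fwd F u).r') * (F.x (.inr 1) * ((fwd F u).r * (fwd F u).r')) by noncomm_ring,
        hr]
      simp [px, xp, splice, G2]
    · show fw F * ((fwd F u).r * (fwd F u).r') = F.x (.inr 2)
      rw [hr]
      simp [fw, add_mul, xp, splice, G2]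
    · show (fwd F u).r * ((fwd F u).r' * (F.x (.inr 3) * fw F) * fw' F) = F.x (.inr 3)
      rw [show (fwd F u).r * ((fwd F u).r' * (F.x (.inr 3) * fw F) * fw' F) =
        ((fwd F u).r * (fwd F u).r') * (F.x (.inr 3) * (fw F * fw' F)) by noncomm_ring, hr, w_fw]
      simp [px, xp, splice, G2]
    · show F.x (.inr 4) * fw F * fw' F = F.x (.inr 4)
      rw [mul_assoc, w_fw]
      simp [xp, splice, G2]
    · show fw F * F.p (.inl 0) = F.x (.inr 5)
      simp [fw, add_mul, xp, splice, G2]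
  · rw [back_y]
    rcases e with e | e <;> fin_cases e
    · rfl
    · rfl
    · show fw F * (fw' F * fw' F) = F.y (.inr 0)
      rw [← mul_assoc, w_fw]
      simp [fw', mul_add, py, splice, G2]
    · show (fwd F u).r * ((fwd F u).r' * (F.y (.inr 1) * (fwd F u).r) * (fwd F u).r') = F.y (.inr 1)
      rw [show (fwd F u).r * ((fwd F u).r' * (F.y (.inr 1) * (fwd F u).r) * (fwd F u).r') =
        ((fwd F u).r * (fwd F u).r') * (F.y (.inr 1) * ((fwd F u).r * (fwd F u).r')) by noncomm_ring,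
        hr]
      simp [py, yp, splice, G2]
    · show (fwd F u).r * ((fwd F u).r' * fw' F) = F.y (.inr 2)
      rw [← mul_assoc, hr]
      simp [fw', mul_add, py, splice, G2]
    · show fw F * (fw' F * F.y (.inr 3) * (fwd F u).r * (fwd F u).r') = F.y (.inr 3)
      rw [show fw F * (fw' F * F.y (.inr 3) * (fwd F u).r * (fwd F u).r') =
        (fw F * fw' F) * (F.y (.inr 3) * ((fwd F u).r * (fwd F u).r')) by noncomm_ring, hr, w_fw]
      simp [py, yp, splice, G2]
    · show fw F * (fw' F * F.y (.inr 4)) = F.y (.inr 4)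
      rw [← mul_assoc, w_fw]
      simp [py, splice, G2]
    · show F.p (.inl 0) * fw' F = F.y (.inr 5)
      simp [fw', mul_add, py, splice, G2]

end Fwd

section Bu

variable (k : Type u) [Field k] {A : Type*} [Ring A] [Algebra k A] (L M : Lv A)

theorem fw_back : fw (back k L M) = M.x2 * L.x1 := by
  simp [fw, back, mul_assoc, mul_sub, sub_mul]

theorem fw'_back : fw' (back k L M) = L.y1 * M.y2 := by
  simp [fw', back, mul_assoc, mul_sub, sub_mul]
  try abel

theorem q_back : (mi (back k L M)).q = M.x2 * (L.x2 * (L.y2 * M.y2)) := rfl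

/-- the unit -/
noncomputable def bu : Aˣ where
  val := (mi (back k L M)).t' * (M.x2 * L.x2)
  inv := (L.y2 * M.y2) * (mi (back k L M)).t
  val_inv := by
    rw [show (mi (back k L M)).t' * (M.x2 * L.x2) * ((L.y2 * M.y2) * (mi (back k L M)).t) =
      (mi (back k L M)).t' * ((M.x2 * (L.x2 * (L.y2 * M.y2))) * (mi (back k L M)).t) by
      noncomm_ring, ← q_back k, Mi.q_t, Mi.ti_t]
  inv_val := by
    rw [show (L.y2 * M.y2) * (mi (back k L M)).t * ((mi (back k L M)).t' * (M.x2 * L.x2)) =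
      (L.y2 * M.y2) * (((mi (back k L M)).t * (mi (back k L M)).t') * (M.x2 * L.x2)) by
      noncomm_ring, Mi.t_ti, q_back k]
    simp [mul_assoc, -Lv.s, -Lv.sr]

theorem r_bu : (mi (back k L M)).t * (bu k L M : A) = M.x2 * L.x2 := by
  show (mi (back k L M)).t * ((mi (back k L M)).t' * (M.x2 * L.x2)) = M.x2 * L.x2
  rw [← mul_assoc, Mi.t_ti, q_back k]
  simp [mul_assoc, -Lv.s, -Lv.sr]

theorem r'_bu : ((bu k L M)⁻¹ : Aˣ).val * (mi (back k L M)).t' = L.y2 * M.y2 := by
  show (L.y2 * M.y2) * (mi (back k L M)).t * (mi (back k L M)).t' = L.y2 * M.y2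
  rw [mul_assoc, Mi.t_ti, q_back k]
  simp [mul_assoc, -Lv.s, -Lv.sr]

theorem fwd_L : (fwd (back k L M) (bu k L M)).L = L := by
  refine Lv.ext' ?_ ?_ ?_ ?_
  · show ((bu k L M)⁻¹ : Aˣ).val * (mi (back k L M)).t' * ((back k L M).x (.inr 3) * fw (back k L M))
      = L.x1
    rw [r'_bu, fw_back]
    simp [back, mul_assoc, -Lv.s, -Lv.sr]
  · show ((bu k L M)⁻¹ : Aˣ).val * (mi (back k L M)).t' * ((back k L M).x (.inr 1) *
      ((mi (back k L M)).t * (bu k L M : A))) = L.x2
    rw [r'_bu, r_bu]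
    simp [back, mul_assoc, -Lv.s, -Lv.sr]
  · show (fw' (back k L M) * (back k L M).y (.inr 3)) * ((mi (back k L M)).t * (bu k L M : A))
      = L.y1
    rw [r_bu, fw'_back]
    simp [back, mul_assoc, -Lv.s, -Lv.sr]
  · show ((bu k L M)⁻¹ : Aˣ).val * (mi (back k L M)).t' * ((back k L M).y (.inr 1) *
      ((mi (back k L M)).t * (bu k L M : A))) = L.y2
    rw [r'_bu, r_bu]
    simp [back, mul_assoc, -Lv.s, -Lv.sr]

theorem fwd_W : (fwd (back k L M) (bu k L M)).W = M.x2 := by
  unfold S1.W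
  rw [fwd_L]
  show fw (back k L M) * L.y1 + ((mi (back k L M)).t * (bu k L M : A)) * L.y2 = M.x2
  rw [r_bu, fw_back, mul_assoc, mul_assoc, ← mul_add, L.hs, mul_one]

theorem fwd_W' : (fwd (back k L M) (bu k L M)).W' = M.y2 := by
  unfold S1.W'
  rw [fwd_L]
  show L.x1 * fw' (back k L M) + L.x2 * (((bu k L M)⁻¹ : Aˣ).val * (mi (back k L M)).t') = M.y2
  rw [r'_bu, fw'_back, ← mul_assoc, ← mul_assoc, ← add_mul, L.hs, one_mul]

theorem fwd_M : (fwd (back k L M) (bu k L M)).M = M := by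
  have h1 : (fwd (back k L M) (bu k L M)).B = M.x1 * M.x2 := by
    unfold S1.B
    rw [fwd_W']
    show (back k L M).x (.inl 1) + (back k L M).x (.inr 4) * fw (back k L M) * M.y2 = M.x1 * M.x2
    rw [fw_back]
    simp [back, mul_assoc, mul_sub, sub_mul]
  have h2 : (fwd (back k L M) (bu k L M)).B' = M.y2 * M.y1 := by
    unfold S1.B'
    rw [fwd_W]
    show (back k L M).y (.inl 1) + M.x2 * (fw' (back k L M) * (back k L M).y (.inr 4)) =
      M.y2 * M.y1
    rw [fw'_back]
    simp [back, mul_assoc, mul_sub, sub_mul]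
  refine Lv.ext' ?_ ?_ ?_ ?_
  · show (fwd (back k L M) (bu k L M)).D = M.x1
    unfold S1.D
    rw [h1, fwd_W']
    show (back k L M).x (.inl 0) + M.x1 * M.x2 * M.y2 = M.x1
    simp [back, mul_assoc, mul_sub, sub_mul]
  · exact fwd_W k L M
  · show (fwd (back k L M) (bu k L M)).D' = M.y1
    unfold S1.D'
    rw [h2, fwd_W]
    show (back k L M).y (.inl 0) + M.x2 * (M.y2 * M.y1) = M.y1
    simp [back, mul_assoc, mul_sub, sub_mul]
  · exact fwd_W' k L M

end Bu

theorem bu_fwd {k : Type u} [Field k] {A : Type*} [Ring A] [Algebra k A]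
    (F : Fam k Gm Gm.IsReg A) (u : Aˣ) : bu k (fwd F u).L (fwd F u).M = u := by
  refine Units.ext ?_
  show (mi (back k (fwd F u).L (fwd F u).M)).t' * ((fwd F u).W * (fwd F u).L.x2) = u
  rw [back_fwd, S_WH]
  show (mi F).t' * ((mi F).t * u) = u
  rw [← mul_assoc, Mi.ti_t, one_mul]

end Pool.Agent.SKZ
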