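import Pool.Agent.SKZ.Mi

/-!
# From families of the graph of `L_{2-}` to the reduced form
-/

set_option autoImplicit false
set_option linter.all false

universe u

namespace Pool.Agent.SKZ

open CKS

section Gen

variable {k : Type u} [Field k] {V E : Type} [DecidableEq V] [DecidableEq E] {G : CKS.Graph V E}
  {Reg : V → Prop} {A : Type*} [Ring A] [Algebra k A] (F : Fam k G Reg A)

theorem pp (a b : V) : F.p a * F.p b = if a = b then F.p a else 0 := by
  split_ifs with h
  · rw [← h, F.idem]
  · exact F.orth a b h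
theorem px (a : V) (e : E) : F.p a * F.x e = if a = G.s e then F.x e else 0 := by
  rw [← F.se e, ← mul_assoc, pp]
  split_ifs with h
  · rw [h]
  · rw [zero_mul]
theorem xp (e : E) (a : V) : F.x e * F.p a = if G.r e = a then F.x e else 0 := by
  rw [← F.er e, mul_assoc, pp]
  split_ifs with h
  · rfl
  · rw [mul_zero]
theorem py (a : V) (e : E) : F.p a * F.y e = if a = G.r e then F.y e else 0 := by
  rw [← F.rg e, ← mul_assoc, pp]
  split_ifs with h
  · rw [h]
  · rw [zero_mul]
theorem yp (e : E) (a : V) : F.y e * F.p a = if G.s e = a then F.y e else 0 := by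
  rw [← F.gs e, mul_assoc, pp]
  split_ifs with h
  · rfl
  · rw [mul_zero]
theorem yx (e f : E) : F.y e * F.x f = if e = f then F.p (G.r e) else 0 := by
  split_ifs with h
  · rw [← h, F.ge]
  · exact F.gf e f h
theorem xy (e f : E) (h : G.r e ≠ G.r f) : F.x e * F.y f = 0 := by
  rw [← F.er e, ← F.rg f, mul_assoc, ← mul_assoc (F.p (G.r e)), F.orth _ _ h, zero_mul, mul_zero]

theorem ppr (a b : V) (z : A) : F.p a * (F.p b * z) = if a = b then F.p a * z else 0 := by
  rw [← mul_assoc, pp]; split_ifs <;> simp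
theorem pxr (a : V) (e : E) (z : A) : F.p a * (F.x e * z) = if a = G.s e then F.x e * z else 0 := by
  rw [← mul_assoc, px]; split_ifs <;> simp
theorem xpr (e : E) (a : V) (z : A) : F.x e * (F.p a * z) = if G.r e = a then F.x e * z else 0 := by
  rw [← mul_assoc, xp]; split_ifs <;> simp
theorem pyr (a : V) (e : E) (z : A) : F.p a * (F.y e * z) = if a = G.r e then F.y e * z else 0 := by
  rw [← mul_assoc, py]; split_ifs <;> simp
theorem ypr (e : E) (a : V) (z : A) : F.y e * (F.p a * z) = if G.s e = a then F.y e * z else 0 := by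
  rw [← mul_assoc, yp]; split_ifs <;> simp
theorem yxr (e f : E) (z : A) :
    F.y e * (F.x f * z) = if e = f then F.p (G.r e) * z else 0 := by
  rw [← mul_assoc, yx]; split_ifs <;> simp

end Gen

section Spec

variable {k : Type u} [Field k] {A : Type*} [Ring A] [Algebra k A] (F : Fam k Gm Gm.IsReg A)

theorem ck0 : F.x (.inl 0) * F.y (.inl 0) + (F.x (.inl 1) * F.y (.inl 1) +
    F.x (.inr 4) * F.y (.inr 4)) = F.p (.inl 0) := by
  have h := F.ck (.inl 0) ⟨.inl 0, rfl⟩ {.inl 0, .inl 1, .inr 4} (by decide)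
  rw [Finset.sum_insert (by decide), Finset.sum_insert (by decide), Finset.sum_singleton] at h
  exact h

theorem ck1 : F.x (.inr 0) * F.y (.inr 0) + (F.x (.inr 2) * F.y (.inr 2) +
    F.x (.inr 5) * F.y (.inr 5)) = F.p (.inr 0) := by
  have h := F.ck (.inr 0) ⟨.inr 0, rfl⟩ {.inr 0, .inr 2, .inr 5} (by decide)
  rw [Finset.sum_insert (by decide), Finset.sum_insert (by decide), Finset.sum_singleton] at h
  exact h

theorem ck2 : F.x (.inr 1) * F.y (.inr 1) + F.x (.inr 3) * F.y (.inr 3) = F.p (.inr 1) := by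
  have h := F.ck (.inr 1) ⟨.inr 1, rfl⟩ {.inr 1, .inr 3} (by decide)
  rw [Finset.sum_insert (by decide), Finset.sum_singleton] at h
  exact h

theorem one3 : F.p (.inl 0) + (F.p (.inr 0) + F.p (.inr 1)) = 1 := by
  have h := F.one {.inl 0, .inr 0, .inr 1} (by decide)
  rw [Finset.sum_insert (by decide), Finset.sum_insert (by decide), Finset.sum_singleton] at h
  exact h

/-- the isomorphism `A = v1 A` -/
def fw : A := F.x (.inr 5) + F.x (.inr 0) + F.x (.inr 2)
def fw' : A := F.y (.inr 5) + F.y (.inr 0) + F.y (.inr 2)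

theorem fw_w : fw' F * fw F = 1 := by
  rw [← one3 F]
  simp [fw, fw', mul_add, add_mul, yx, splice, G2]
  abel

theorem w_fw : fw F * fw' F = F.p (.inr 0) := by
  rw [← ck1 F]
  have h1 := xy F (.inr 5) (.inr 0) (by decide)
  have h2 := xy F (.inr 5) (.inr 2) (by decide)
  have h3 := xy F (.inr 0) (.inr 5) (by decide)
  have h4 := xy F (.inr 0) (.inr 2) (by decide)
  have h5 := xy F (.inr 2) (.inr 5) (by decide)
  have h6 := xy F (.inr 2) (.inr 0) (by decide)
  simp only [fw, fw', mul_add, add_mul, h1, h2, h3, h4, h5, h6]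
  abel

theorem p_w (a : Fin 1 ⊕ Fin 2) : F.p a * fw F = if a = .inr 0 then fw F else 0 := by
  simp [fw, mul_add, px, splice, G2]
  split_ifs <;> simp

theorem w_p (a : Fin 1 ⊕ Fin 2) : fw' F * F.p a = if a = .inr 0 then fw' F else 0 := by
  simp [fw', add_mul, yp, splice, G2]
  split_ifs with h1 h2 <;> simp_all

/-- the reduced form of a family -/
def mi : Mi A where
  p := F.p (.inl 0)
  q := F.p (.inr 1)
  w := fw F
  w' := fw' F
  a := F.x (.inl 0)
  b := F.x (.inl 1)
  c := F.x (.inr 4) * fw F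
  a' := F.y (.inl 0)
  b' := F.y (.inl 1)
  c' := fw' F * F.y (.inr 4)
  g := F.x (.inr 3) * fw F
  h := F.x (.inr 1)
  g' := fw' F * F.y (.inr 3)
  h' := F.y (.inr 1)
  h_p_p := by simp [pp]
  h_q_q := by simp [pp]
  h_p_q := by simp [pp]
  h_q_p := by simp [pp]
  h_wi_w := fw_w F
  h_p_w := by simp [p_w]
  h_q_w := by simp [p_w]
  h_wi_p := by simp [w_p]
  h_wi_q := by simp [w_p]
  h_p_a := by simp [px, splice, G2]
  h_a_p := by simp [xp, splice, G2]
  h_p_b := by simp [px, splice, G2]
  h_b_p := by simp [xp, splice, G2]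
  h_p_c := by simp [pxr, splice, G2]
  h_p_ai := by simp [py, splice, G2]
  h_ai_p := by simp [yp, splice, G2]
  h_p_bi := by simp [py, splice, G2]
  h_bi_p := by simp [yp, splice, G2]
  h_ci_p := by simp [mul_assoc, yp, splice, G2]
  h_ai_a := by simp [yx, splice, G2]
  h_bi_b := by simp [yx, splice, G2]
  h_ci_c := by simp [mul_assoc, yxr, splice, G2, p_w, fw_w]
  h_ai_b := by simp [yx, splice, G2]
  h_bi_a := by simp [yx, splice, G2]
  h_ai_c := by simp [yxr, splice, G2]
  h_ci_a := by simp [mul_assoc, yx, splice, G2]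
  h_bi_c := by simp [yxr, splice, G2]
  h_ci_b := by simp [mul_assoc, yx, splice, G2]
  h_q_g := by simp [pxr, splice, G2]
  h_gi_q := by simp [mul_assoc, yp, splice, G2]
  h_q_h := by simp [px, splice, G2]
  h_h_q := by simp [xp, splice, G2]
  h_hi_q := by simp [yp, splice, G2]
  h_q_hi := by simp [py, splice, G2]
  h_gi_g := by simp [mul_assoc, yxr, splice, G2, p_w, fw_w]
  h_hi_h := by simp [yx, splice, G2]
  h_gi_h := by simp [mul_assoc, yx, splice, G2]
  h_hi_g := by simp [yxr, splice, G2]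
  sw := by rw [w_fw, ← one3 F]; abel
  sc := by
    rw [mul_assoc, ← mul_assoc (fw F), w_fw, ← ck0 F]
    simp only [pyr, py, splice, G2]
    simp
  sh := by
    rw [mul_assoc, ← mul_assoc (fw F), w_fw, ← ck2 F]
    simp only [pyr, py, splice, G2]
    simp

end Spec

end Pool.Agent.SKZ
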