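import Pool.Agent.SKZ.Univ

/-!
# Free products
-/

set_option autoImplicit false
set_option linter.all false

universe u

namespace Pool.Agent.SKZ

open CKS LaurentPolynomial

/-- `U` is the free product (the coproduct) of the `k`-algebras `A` and `B`, by the homomorphisms
`i : A → U` and `j : B → U` -/
def IsFreeProduct {k A B U : Type u} [Field k] [Ring A] [Algebra k A] [Ring B] [Algebra k B]
    [Ring U] [Algebra k U] (i : A →ₐ[k] U) (j : B →ₐ[k] U) : Prop :=
  ∀ (C : Type u) [Ring C] [Algebra k C] (f : A →ₐ[k] C) (g : B →ₐ[k] C),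
    ∃! φ : U →ₐ[k] C, φ.comp i = f ∧ φ.comp j = g

section

variable {k : Type u} [Field k] {C : Type*} [Ring C] [Algebra k C]

/-- the homomorphism given by a unit -/
noncomputable def ofU (b : Cˣ) : k[T;T⁻¹] →ₐ[k] C :=
  AddMonoidAlgebra.lift k C ℤ ((Units.coeHom C).comp (zpowersHom Cˣ b))

theorem ofU_T (b : Cˣ) : ofU (k := k) b (T 1) = b := by
  unfold ofU T
  rw [AddMonoidAlgebra.lift_single]
  simp

variable (k) in
/-- the unit `T` -/
noncomputable def Tu : (k[T;T⁻¹])ˣ where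
  val := T 1
  inv := T (-1)
  val_inv := by rw [← T_add]; simp
  inv_val := by rw [← T_add]; simp

theorem Tu_zpow (n : ℤ) : ((Tu k ^ n : (k[T;T⁻¹])ˣ) : k[T;T⁻¹]) = T n := by
  induction n using Int.induction_on with
  | zero => simp
  | succ n ih =>
    rw [zpow_add_one, Units.val_mul, ih, show ((Tu k : (k[T;T⁻¹])ˣ) : k[T;T⁻¹]) = T 1 from rfl,
      ← T_add]
  | pred n ih =>
    rw [zpow_sub_one, Units.val_mul, ih,
      show (((Tu k)⁻¹ : (k[T;T⁻¹])ˣ) : k[T;T⁻¹]) = T (-1) from rfl, ← T_add]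
    congr 1

theorem lau_ext {f g : k[T;T⁻¹] →ₐ[k] C} (h : f (T 1) = g (T 1)) : f = g := by
  have h2 : Units.map (f : k[T;T⁻¹] →* C) (Tu k) = Units.map (g : k[T;T⁻¹] →* C) (Tu k) :=
    Units.ext h
  have e : ∀ (φ : k[T;T⁻¹] →ₐ[k] C) (n : ℤ), φ (T n) =
      ((Units.map (φ : k[T;T⁻¹] →* C) (Tu k)) ^ n : Cˣ) := by
    intro φ n
    rw [← map_zpow]
    show φ (T n) = φ ((Tu k ^ n : (k[T;T⁻¹])ˣ) : k[T;T⁻¹])
    rw [Tu_zpow]
  have h3 : ∀ n : ℤ, f (T n) = g (T n) := by
    intro n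
    rw [e f, e g, h2]
  exact AddMonoidAlgebra.algHom_ext h3 (by ext)

end

theorem coprod_of {k A U : Type u} [Field k] [Ring A] [Algebra k A] [Ring U] [Algebra k U]
    {i : A →ₐ[k] U} {s : Uˣ} (h : IsFreeUnit i s) : IsFreeProduct i (ofU (k := k) s) := by
  intro C _ _ f g
  have hg : ∀ φ : U →ₐ[k] C, φ.comp (ofU (k := k) s) = g ↔ φ s = g (T 1) := by
    intro φ
    constructor
    · intro h
      rw [← h, AlgHom.comp_apply, ofU_T]
    · intro h
      refine lau_ext ?_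
      rw [AlgHom.comp_apply, ofU_T, h]
  obtain ⟨φ, ⟨h1, h2⟩, h3⟩ := h C f (Units.map (g : k[T;T⁻¹] →* C) (Tu k))
  refine ⟨φ, ⟨h1, (hg φ).2 h2⟩, fun ψ hψ => h3 ψ ⟨hψ.1, (hg ψ).1 hψ.2⟩⟩

/-- `U2` is the free product of two copies of `L_2` -/
theorem free_two (k : Type u) [Field k] :
    IsFreeProduct (k := k) (rose k (uL k 0)).lift (rose k (uL k 1)).lift := by
  intro C _ _ f g
  have hF : ∀ (j : Fin 2) (f : LPA k G2 →ₐ[k] C) (φ : U2 k →ₐ[k] C),
      φ.comp (rose k (uL k j)).lift = f ↔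
      Fmap φ (rose k (uL k j)) = Fmap f (taut k G2 G2.IsReg) := by
    intro j f φ
    constructor
    · intro h
      refine Fam.ext' (fun a => ?_) (fun e => ?_) (fun e => ?_)
      · show φ ((rose k (uL k j)).p a) = f (vt a)
        rw [← h, AlgHom.comp_apply, lift_vt]
      · show φ ((rose k (uL k j)).x e) = f (ed e)
        rw [← h, AlgHom.comp_apply, lift_ed]
      · show φ ((rose k (uL k j)).y e) = f (gh e)
        rw [← h, AlgHom.comp_apply, lift_gh]
    · intro h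
      refine hom_ext (fun a => ?_) (fun e => ?_) (fun e => ?_)
      · rw [AlgHom.comp_apply, lift_vt]
        exact congrArg (fun F : Fam k G2 G2.IsReg C => F.p a) h
      · rw [AlgHom.comp_apply, lift_ed]
        exact congrArg (fun F : Fam k G2 G2.IsReg C => F.x e) h
      · rw [AlgHom.comp_apply, lift_gh]
        exact congrArg (fun F : Fam k G2 G2.IsReg C => F.y e) h
  refine ⟨lift2 ![unrose (Fmap f (taut k G2 G2.IsReg)), unrose (Fmap g (taut k G2 G2.IsReg))],
    ⟨?_, ?_⟩, ?_⟩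
  · rw [hF, ← rose_map, lift2_uL]
    exact rose_unrose _
  · rw [hF, ← rose_map, lift2_uL]
    exact rose_unrose _
  · rintro φ ⟨h1, h2⟩
    rw [hF, ← rose_map] at h1 h2
    refine ext2 (fun i => ?_)
    rw [lift2_uL]
    fin_cases i
    · exact rose_inj (k := k) (by
        show rose k ((uL k 0).map φ) = rose k (unrose (Fmap f (taut k G2 G2.IsReg)))
        rw [h1, rose_unrose])
    · exact rose_inj (k := k) (by
        show rose k ((uL k 1).map φ) = rose k (unrose (Fmap g (taut k G2 G2.IsReg)))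
        rw [h2, rose_unrose])

theorem all (k : Type u) [Field k] : ∃ (U : Type u) (_ : Ring U) (_ : Algebra k U)
    (i : LPA k G2 →ₐ[k] U) (s : k[T;T⁻¹] →ₐ[k] U) (j : LPA k (splice G2 0) →ₐ[k] U)
    (t : k[T;T⁻¹] →ₐ[k] U) (i' j' : LPA k G2 →ₐ[k] U),
    IsFreeProduct i s ∧ IsFreeProduct j t ∧ IsFreeProduct i' j' :=
  ⟨U2 k, inferInstance, inferInstance, _, _, _, _, _, _, coprod_of (free_plus k),
    coprod_of (free_minus k), free_two k⟩

theorem both (k : Type u) [Field k] : ∃ (U : Type u) (_ : Ring U) (_ : Algebra k U)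
    (i : LPA k G2 →ₐ[k] U) (s : k[T;T⁻¹] →ₐ[k] U) (j : LPA k (splice G2 0) →ₐ[k] U)
    (t : k[T;T⁻¹] →ₐ[k] U), IsFreeProduct i s ∧ IsFreeProduct j t :=
  ⟨U2 k, inferInstance, inferInstance, _, _, _, _, coprod_of (free_plus k),
    coprod_of (free_minus k)⟩

end Pool.Agent.SKZ
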