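import Pool.Agent.CKS.Basic

/-!
# Leavitt families, and the family of the graph of `L_{2-}` given by two of them
-/

set_option autoImplicit false
set_option linter.all false

universe u

namespace Pool.Agent.SKZ

open CKS

/-- a Leavitt family of type `(1,2)` in a ring -/
structure Lv (A : Type*) [Ring A] where
  x1 : A
  x2 : A
  y1 : A
  y2 : A
  h11 : y1 * x1 = 1
  h22 : y2 * x2 = 1
  h12 : y1 * x2 = 0
  h21 : y2 * x1 = 0
  hs : x1 * y1 + x2 * y2 = 1

section Simp

variable {A : Type*} [Ring A] (L : Lv A)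

attribute [simp] Lv.h11 Lv.h22 Lv.h12 Lv.h21

@[simp] theorem Lv.r11 (z : A) : L.y1 * (L.x1 * z) = z := by rw [← mul_assoc, L.h11, one_mul]
@[simp] theorem Lv.r22 (z : A) : L.y2 * (L.x2 * z) = z := by rw [← mul_assoc, L.h22, one_mul]
@[simp] theorem Lv.r12 (z : A) : L.y1 * (L.x2 * z) = 0 := by rw [← mul_assoc, L.h12, zero_mul]
@[simp] theorem Lv.r21 (z : A) : L.y2 * (L.x1 * z) = 0 := by rw [← mul_assoc, L.h21, zero_mul]
@[simp] theorem Lv.s : L.x2 * L.y2 = 1 - L.x1 * L.y1 := by rw [← L.hs]; abel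
@[simp] theorem Lv.sr (z : A) : L.x2 * (L.y2 * z) = z - L.x1 * (L.y1 * z) := by
  rw [← mul_assoc, L.s, sub_mul, one_mul, mul_assoc]

end Simp

/-- the graph of `L_{2-}` -/
abbrev Gm : CKS.Graph (Fin 1 ⊕ Fin 2) (Fin 2 ⊕ Fin 6) := splice G2 0

/-- the family given by two Leavitt families -/
noncomputable def back (k : Type u) [Field k] {A : Type*} [Ring A] [Algebra k A] (L M : Lv A) :
    Fam k Gm Gm.IsReg A where
  p := Sum.elim ![M.x1 * M.y1]
    ![M.x2 * (L.x1 * (L.y1 * M.y2)), M.x2 * (L.x2 * (L.y2 * M.y2))]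
  x := Sum.elim ![M.x1 * (M.x1 * M.y1), M.x1 * (M.x2 * (M.x1 * M.y1))]
    ![M.x2 * (L.x1 * (M.x2 * (L.x1 * (L.y1 * M.y2)))),
      M.x2 * (L.x2 * (L.x2 * (L.y2 * M.y2))),
      M.x2 * (L.x1 * (M.x2 * (L.x2 * (L.y2 * M.y2)))),
      M.x2 * (L.x2 * (L.x1 * (L.y1 * M.y2))),
      M.x1 * (M.x2 * (M.x2 * (L.y1 * M.y2))),
      M.x2 * (L.x1 * (M.x1 * M.y1))]
  y := Sum.elim ![M.x1 * (M.y1 * M.y1), M.x1 * (M.y1 * (M.y2 * M.y1))]
    ![M.x2 * (L.x1 * (L.y1 * (M.y2 * (L.y1 * M.y2)))),
      M.x2 * (L.x2 * (L.y2 * (L.y2 * M.y2))),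
      M.x2 * (L.x2 * (L.y2 * (M.y2 * (L.y1 * M.y2)))),
      M.x2 * (L.x1 * (L.y1 * (L.y2 * M.y2))),
      M.x2 * (L.x1 * (M.y2 * (M.y2 * M.y1))),
      M.x1 * (M.y1 * (L.y1 * M.y2))]
  idem a := by
    rcases a with a | a <;> fin_cases a <;> simp [mul_assoc, mul_sub, sub_mul]
  orth a b h := by
    rcases a with a | a <;> rcases b with b | b <;> fin_cases a <;> fin_cases b <;>
      first
        | exact absurd rfl h
        | simp [mul_assoc, mul_sub, sub_mul]
  se e := by
    rcases e with e | e <;> fin_cases e <;> simp [splice, G2, mul_assoc, mul_sub, sub_mul]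
  er e := by
    rcases e with e | e <;> fin_cases e <;> simp [splice, G2, mul_assoc, mul_sub, sub_mul]
  rg e := by
    rcases e with e | e <;> fin_cases e <;> simp [splice, G2, mul_assoc, mul_sub, sub_mul]
  gs e := by
    rcases e with e | e <;> fin_cases e <;> simp [splice, G2, mul_assoc, mul_sub, sub_mul]
  ge e := by
    rcases e with e | e <;> fin_cases e <;> simp [splice, G2, mul_assoc, mul_sub, sub_mul]
  gf e f h := by
    rcases e with e | e <;> rcases f with f | f <;> fin_cases e <;> fin_cases f <;>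
      first
        | exact absurd rfl h
        | simp [mul_assoc, mul_sub, sub_mul]
  ck a ha S hS := by
    have hS' : S = Finset.univ.filter (fun e => Gm.s e = a) := by ext e; simp [hS]
    subst hS'
    rcases a with a | a <;> fin_cases a <;>
      simp [Finset.sum_filter, Fintype.sum_sum_type, Fin.sum_univ_succ, splice, G2, mul_assoc,
        mul_sub, sub_mul] <;> abel
  one S hS := by
    have hS' : S = Finset.univ := by ext e; simp [hS]
    subst hS'
    simp [Fintype.sum_sum_type, Fin.sum_univ_succ, mul_assoc, mul_sub, sub_mul]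

end Pool.Agent.SKZ
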