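import Pool.Agent.SKZ.FM

/-!
# Families of the graph of `L_{2-}` with a unit are pairs of Leavitt families
-/

set_option autoImplicit false
set_option linter.all false

universe u

namespace Pool.Agent.SKZ

open CKS

@[ext] theorem Lv.ext' {A : Type*} [Ring A] {L M : Lv A} (h1 : L.x1 = M.x1) (h2 : L.x2 = M.x2)
    (h3 : L.y1 = M.y1) (h4 : L.y2 = M.y2) : L = M := by
  cases L; cases M; simp_all

section ToS

variable {A : Type*} [Ring A] (m : Mi A) (r r' : A) (h1 : r' * r = 1) (h2 : r * r' = m.q)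

include h1 h2

theorem q_r : m.q * r = r := by rw [← h2, mul_assoc, h1, mul_one]
theorem r_q : r' * m.q = r' := by rw [← h2, ← mul_assoc, h1, one_mul]

/-- the intermediate structure -/
def toS : S1 A where
  L :=
    { x1 := r' * m.g
      x2 := r' * (m.h * r)
      y1 := m.g' * r
      y2 := r' * (m.h' * r)
      h11 := by rw [mul_assoc, ← mul_assoc r, h2]; simp
      h22 := by
        rw [mul_assoc, mul_assoc m.h', ← mul_assoc r, h2]
        simp [h1, q_r m r r' h1 h2]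
      h12 := by rw [mul_assoc, ← mul_assoc r, h2]; simp
      h21 := by rw [mul_assoc, mul_assoc m.h', ← mul_assoc r, h2]; simp
      hs := by
        have e : r' * m.g * (m.g' * r) + r' * (m.h * r) * (r' * (m.h' * r)) =
            r' * (m.g * m.g' + m.h * (r * r') * m.h') * r := by noncomm_ring
        rw [e, h2]
        simp [mul_assoc, h1, q_r m r r' h1 h2] }
  p := m.p
  w := m.w
  w' := m.w'
  r := r
  r' := r'
  a := m.a
  b := m.b
  c := m.c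
  a' := m.a'
  b' := m.b'
  c' := m.c'
  h_p_p := m.h_p_p
  h_wi_w := m.h_wi_w
  h_ri_r := h1
  h_wi_r := by rw [← q_r m r r' h1 h2, ← mul_assoc, m.h_wi_q, zero_mul]
  h_ri_w := by rw [← r_q m r r' h1 h2, mul_assoc, m.h_q_w, mul_zero]
  h_p_w := m.h_p_w
  h_p_r := by rw [← q_r m r r' h1 h2, ← mul_assoc, m.h_p_q, zero_mul]
  h_wi_p := m.h_wi_p
  h_ri_p := by rw [← r_q m r r' h1 h2, mul_assoc, m.h_q_p, mul_zero]
  h_p_a := m.h_p_a
  h_a_p := m.h_a_p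
  h_p_b := m.h_p_b
  h_b_p := m.h_b_p
  h_p_c := m.h_p_c
  h_p_ai := m.h_p_ai
  h_ai_p := m.h_ai_p
  h_p_bi := m.h_p_bi
  h_bi_p := m.h_bi_p
  h_ci_p := m.h_ci_p
  h_ai_a := m.h_ai_a
  h_bi_b := m.h_bi_b
  h_ci_c := m.h_ci_c
  h_ai_b := m.h_ai_b
  h_bi_a := m.h_bi_a
  h_ai_c := m.h_ai_c
  h_ci_a := m.h_ci_a
  h_bi_c := m.h_bi_c
  h_ci_b := m.h_ci_b
  sr := by rw [h2, m.sw]; abel
  sc := m.sc

end ToS

section Back

variable (k : Type u) [Field k] {A : Type*} [Ring A] [Algebra k A] (s : S1 A)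

theorem S_DD : s.D * s.D' = s.p := by
  simp [S1.D, S1.D', S1.B, S1.B', S1.W, S1.W', mul_add, add_mul, mul_assoc, mul_sub, sub_mul]
  try abel
theorem S_Dp : s.D * s.p = s.a := by
  simp [S1.D, S1.D', S1.B, S1.B', S1.W, S1.W', mul_add, add_mul, mul_assoc, mul_sub, sub_mul]
theorem S_DW : s.D * s.W = s.B := by
  simp [S1.D, S1.D', S1.B, S1.B', S1.W, S1.W', mul_add, add_mul, mul_assoc, mul_sub, sub_mul]
  try abel
theorem S_Bp : s.B * s.p = s.b := by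
  simp [S1.D, S1.D', S1.B, S1.B', S1.W, S1.W', mul_add, add_mul, mul_assoc, mul_sub, sub_mul]
theorem S_BW : s.B * s.W = s.c := by
  simp [S1.D, S1.D', S1.B, S1.B', S1.W, S1.W', mul_add, add_mul, mul_assoc, mul_sub, sub_mul]
  try abel
theorem S_pD : s.p * s.D' = s.a' := by
  simp [S1.D, S1.D', S1.B, S1.B', S1.W, S1.W', mul_add, add_mul, mul_assoc, mul_sub, sub_mul]
theorem S_WD : s.W' * s.D' = s.B' := by
  simp [S1.D, S1.D', S1.B, S1.B', S1.W, S1.W', mul_add, add_mul, mul_assoc, mul_sub, sub_mul]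
  try abel
theorem S_pB : s.p * s.B' = s.b' := by
  simp [S1.D, S1.D', S1.B, S1.B', S1.W, S1.W', mul_add, add_mul, mul_assoc, mul_sub, sub_mul]
theorem S_WB : s.W' * s.B' = s.c' := by
  simp [S1.D, S1.D', S1.B, S1.B', S1.W, S1.W', mul_add, add_mul, mul_assoc, mul_sub, sub_mul]
  try abel
theorem S_WG : s.W * s.L.x1 = s.w := by
  simp [S1.W, mul_add, add_mul, mul_assoc]
theorem S_WH : s.W * s.L.x2 = s.r := by
  simp [S1.W, mul_add, add_mul, mul_assoc]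
theorem S_GW : s.L.y1 * s.W' = s.w' := by
  simp [S1.W', mul_add, add_mul, mul_assoc]
theorem S_HW : s.L.y2 * s.W' = s.r' := by
  simp [S1.W', mul_add, add_mul, mul_assoc]

theorem S_WGr (z : A) : s.W * (s.L.x1 * z) = s.w * z := by rw [← mul_assoc, S_WG]
theorem S_WHr (z : A) : s.W * (s.L.x2 * z) = s.r * z := by rw [← mul_assoc, S_WH]

theorem back_p (a) : (back k s.L s.M).p a =
    (Sum.elim ![s.p] ![s.w * s.w', s.r * s.r'] : Fin 1 ⊕ Fin 2 → A) a := by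
  rcases a with a | a <;> fin_cases a
  · exact S_DD s
  · show s.W * (s.L.x1 * (s.L.y1 * s.W')) = s.w * s.w'
    rw [S_WGr, S_GW]
  · show s.W * (s.L.x2 * (s.L.y2 * s.W')) = s.r * s.r'
    rw [S_WHr, S_HW]

theorem back_x (e) : (back k s.L s.M).x e =
    (Sum.elim ![s.a, s.b] ![s.w * (s.w * s.w'), s.r * (s.L.x2 * s.r'), s.w * (s.r * s.r'),
      s.r * (s.L.x1 * s.w'), s.c * s.w', s.w * s.p] : Fin 2 ⊕ Fin 6 → A) e := by
  rcases e with e | e <;> fin_cases e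
  · show s.D * (s.D * s.D') = s.a
    rw [S_DD, S_Dp]
  · show s.D * (s.W * (s.D * s.D')) = s.b
    rw [S_DD, ← mul_assoc, S_DW, S_Bp]
  · show s.W * (s.L.x1 * (s.W * (s.L.x1 * (s.L.y1 * s.W')))) = s.w * (s.w * s.w')
    rw [S_WGr, S_WGr, S_GW]
  · show s.W * (s.L.x2 * (s.L.x2 * (s.L.y2 * s.W'))) = s.r * (s.L.x2 * s.r')
    rw [S_WHr, S_HW]
  · show s.W * (s.L.x1 * (s.W * (s.L.x2 * (s.L.y2 * s.W')))) = s.w * (s.r * s.r')
    rw [S_WGr, S_WHr, S_HW]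
  · show s.W * (s.L.x2 * (s.L.x1 * (s.L.y1 * s.W'))) = s.r * (s.L.x1 * s.w')
    rw [S_WHr, S_GW]
  · show s.D * (s.W * (s.W * (s.L.y1 * s.W'))) = s.c * s.w'
    rw [S_GW, ← mul_assoc, S_DW, ← mul_assoc, S_BW]
  · show s.W * (s.L.x1 * (s.D * s.D')) = s.w * s.p
    rw [S_WGr, S_DD]

theorem back_y (e) : (back k s.L s.M).y e =
    (Sum.elim ![s.a', s.b'] ![s.w * (s.w' * s.w'), s.r * (s.L.y2 * s.r'), s.r * (s.r' * s.w'),
      s.w * (s.L.y1 * s.r'), s.w * s.c', s.p * s.w'] : Fin 2 ⊕ Fin 6 → A) e := by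
  rcases e with e | e <;> fin_cases e
  · show s.D * (s.D' * s.D') = s.a'
    rw [← mul_assoc, S_DD, S_pD]
  · show s.D * (s.D' * (s.W' * s.D')) = s.b'
    rw [S_WD, ← mul_assoc, S_DD, S_pB]
  · show s.W * (s.L.x1 * (s.L.y1 * (s.W' * (s.L.y1 * s.W')))) = s.w * (s.w' * s.w')
    rw [S_WGr, S_GW, ← mul_assoc s.L.y1, S_GW]
  · show s.W * (s.L.x2 * (s.L.y2 * (s.L.y2 * s.W'))) = s.r * (s.L.y2 * s.r')
    rw [S_WHr, S_HW]
  · show s.W * (s.L.x2 * (s.L.y2 * (s.W' * (s.L.y1 * s.W')))) = s.r * (s.r' * s.w')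
    rw [S_WHr, S_GW, ← mul_assoc s.L.y2, S_HW]
  · show s.W * (s.L.x1 * (s.L.y1 * (s.L.y2 * s.W'))) = s.w * (s.L.y1 * s.r')
    rw [S_WGr, S_HW]
  · show s.W * (s.L.x1 * (s.W' * (s.W' * s.D'))) = s.w * s.c'
    rw [S_WGr, S_WD, S_WB]
  · show s.D * (s.D' * (s.L.y1 * s.W')) = s.p * s.w'
    rw [S_GW, ← mul_assoc, S_DD]

end Back

end Pool.Agent.SKZ
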