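import Pool.Agent.SKZ.S1

/-!
# Families of the graph of `L_{2-}` in reduced form, with a unit
-/

set_option autoImplicit false
set_option linter.all false

universe u

namespace Pool.Agent.SKZ

open CKS

/-- a family of the graph of `L_{2-}` in reduced form -/
structure Mi (A : Type*) [Ring A] where
  p : A
  q : A
  w : A
  w' : A
  a : A
  b : A
  c : A
  a' : A
  b' : A
  c' : A
  g : A
  h : A
  g' : A
  h' : A
  h_p_p : p * p = p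
  h_q_q : q * q = q
  h_p_q : p * q = 0
  h_q_p : q * p = 0
  h_wi_w : w' * w = 1
  h_p_w : p * w = 0
  h_q_w : q * w = 0
  h_wi_p : w' * p = 0
  h_wi_q : w' * q = 0
  h_p_a : p * a = a
  h_a_p : a * p = a
  h_p_b : p * b = b
  h_b_p : b * p = b
  h_p_c : p * c = c
  h_p_ai : p * a' = a'
  h_ai_p : a' * p = a'
  h_p_bi : p * b' = b'
  h_bi_p : b' * p = b'
  h_ci_p : c' * p = c'
  h_ai_a : a' * a = p
  h_bi_b : b' * b = p
  h_ci_c : c' * c = 1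
  h_ai_b : a' * b = 0
  h_bi_a : b' * a = 0
  h_ai_c : a' * c = 0
  h_ci_a : c' * a = 0
  h_bi_c : b' * c = 0
  h_ci_b : c' * b = 0
  h_q_g : q * g = g
  h_gi_q : g' * q = g'
  h_q_h : q * h = h
  h_h_q : h * q = h
  h_hi_q : h' * q = h'
  h_q_hi : q * h' = h'
  h_gi_g : g' * g = 1
  h_hi_h : h' * h = q
  h_gi_h : g' * h = 0
  h_hi_g : h' * g = 0
  sw : w * w' = 1 - p - q
  sc : c * c' = p - a * a' - b * b'
  sh : h * h' = q - g * g'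

section

variable {A : Type*} [Ring A] (s : Mi A)

attribute [simp] Mi.h_p_p
@[simp] theorem Mi.r_h_p_p (z : A) : s.p * (s.p * z) = s.p * z := by
  rw [← mul_assoc, s.h_p_p]
attribute [simp] Mi.h_q_q
@[simp] theorem Mi.r_h_q_q (z : A) : s.q * (s.q * z) = s.q * z := by
  rw [← mul_assoc, s.h_q_q]
attribute [simp] Mi.h_p_q
@[simp] theorem Mi.r_h_p_q (z : A) : s.p * (s.q * z) = 0 := by
  rw [← mul_assoc, s.h_p_q]; exact zero_mul z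
attribute [simp] Mi.h_q_p
@[simp] theorem Mi.r_h_q_p (z : A) : s.q * (s.p * z) = 0 := by
  rw [← mul_assoc, s.h_q_p]; exact zero_mul z
attribute [simp] Mi.h_wi_w
@[simp] theorem Mi.r_h_wi_w (z : A) : s.w' * (s.w * z) = z := by
  rw [← mul_assoc, s.h_wi_w]; exact one_mul z
attribute [simp] Mi.h_p_w
@[simp] theorem Mi.r_h_p_w (z : A) : s.p * (s.w * z) = 0 := by
  rw [← mul_assoc, s.h_p_w]; exact zero_mul z
attribute [simp] Mi.h_q_w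
@[simp] theorem Mi.r_h_q_w (z : A) : s.q * (s.w * z) = 0 := by
  rw [← mul_assoc, s.h_q_w]; exact zero_mul z
attribute [simp] Mi.h_wi_p
@[simp] theorem Mi.r_h_wi_p (z : A) : s.w' * (s.p * z) = 0 := by
  rw [← mul_assoc, s.h_wi_p]; exact zero_mul z
attribute [simp] Mi.h_wi_q
@[simp] theorem Mi.r_h_wi_q (z : A) : s.w' * (s.q * z) = 0 := by
  rw [← mul_assoc, s.h_wi_q]; exact zero_mul z
attribute [simp] Mi.h_p_a
@[simp] theorem Mi.r_h_p_a (z : A) : s.p * (s.a * z) = s.a * z := by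
  rw [← mul_assoc, s.h_p_a]
attribute [simp] Mi.h_a_p
@[simp] theorem Mi.r_h_a_p (z : A) : s.a * (s.p * z) = s.a * z := by
  rw [← mul_assoc, s.h_a_p]
attribute [simp] Mi.h_p_b
@[simp] theorem Mi.r_h_p_b (z : A) : s.p * (s.b * z) = s.b * z := by
  rw [← mul_assoc, s.h_p_b]
attribute [simp] Mi.h_b_p
@[simp] theorem Mi.r_h_b_p (z : A) : s.b * (s.p * z) = s.b * z := by
  rw [← mul_assoc, s.h_b_p]
attribute [simp] Mi.h_p_c
@[simp] theorem Mi.r_h_p_c (z : A) : s.p * (s.c * z) = s.c * z := by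
  rw [← mul_assoc, s.h_p_c]
attribute [simp] Mi.h_p_ai
@[simp] theorem Mi.r_h_p_ai (z : A) : s.p * (s.a' * z) = s.a' * z := by
  rw [← mul_assoc, s.h_p_ai]
attribute [simp] Mi.h_ai_p
@[simp] theorem Mi.r_h_ai_p (z : A) : s.a' * (s.p * z) = s.a' * z := by
  rw [← mul_assoc, s.h_ai_p]
attribute [simp] Mi.h_p_bi
@[simp] theorem Mi.r_h_p_bi (z : A) : s.p * (s.b' * z) = s.b' * z := by
  rw [← mul_assoc, s.h_p_bi]
attribute [simp] Mi.h_bi_p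
@[simp] theorem Mi.r_h_bi_p (z : A) : s.b' * (s.p * z) = s.b' * z := by
  rw [← mul_assoc, s.h_bi_p]
attribute [simp] Mi.h_ci_p
@[simp] theorem Mi.r_h_ci_p (z : A) : s.c' * (s.p * z) = s.c' * z := by
  rw [← mul_assoc, s.h_ci_p]
attribute [simp] Mi.h_ai_a
@[simp] theorem Mi.r_h_ai_a (z : A) : s.a' * (s.a * z) = s.p * z := by
  rw [← mul_assoc, s.h_ai_a]
attribute [simp] Mi.h_bi_b
@[simp] theorem Mi.r_h_bi_b (z : A) : s.b' * (s.b * z) = s.p * z := by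
  rw [← mul_assoc, s.h_bi_b]
attribute [simp] Mi.h_ci_c
@[simp] theorem Mi.r_h_ci_c (z : A) : s.c' * (s.c * z) = z := by
  rw [← mul_assoc, s.h_ci_c]; exact one_mul z
attribute [simp] Mi.h_ai_b
@[simp] theorem Mi.r_h_ai_b (z : A) : s.a' * (s.b * z) = 0 := by
  rw [← mul_assoc, s.h_ai_b]; exact zero_mul z
attribute [simp] Mi.h_bi_a
@[simp] theorem Mi.r_h_bi_a (z : A) : s.b' * (s.a * z) = 0 := by
  rw [← mul_assoc, s.h_bi_a]; exact zero_mul z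
attribute [simp] Mi.h_ai_c
@[simp] theorem Mi.r_h_ai_c (z : A) : s.a' * (s.c * z) = 0 := by
  rw [← mul_assoc, s.h_ai_c]; exact zero_mul z
attribute [simp] Mi.h_ci_a
@[simp] theorem Mi.r_h_ci_a (z : A) : s.c' * (s.a * z) = 0 := by
  rw [← mul_assoc, s.h_ci_a]; exact zero_mul z
attribute [simp] Mi.h_bi_c
@[simp] theorem Mi.r_h_bi_c (z : A) : s.b' * (s.c * z) = 0 := by
  rw [← mul_assoc, s.h_bi_c]; exact zero_mul z
attribute [simp] Mi.h_ci_b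
@[simp] theorem Mi.r_h_ci_b (z : A) : s.c' * (s.b * z) = 0 := by
  rw [← mul_assoc, s.h_ci_b]; exact zero_mul z
attribute [simp] Mi.h_q_g
@[simp] theorem Mi.r_h_q_g (z : A) : s.q * (s.g * z) = s.g * z := by
  rw [← mul_assoc, s.h_q_g]
attribute [simp] Mi.h_gi_q
@[simp] theorem Mi.r_h_gi_q (z : A) : s.g' * (s.q * z) = s.g' * z := by
  rw [← mul_assoc, s.h_gi_q]
attribute [simp] Mi.h_q_h
@[simp] theorem Mi.r_h_q_h (z : A) : s.q * (s.h * z) = s.h * z := by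
  rw [← mul_assoc, s.h_q_h]
attribute [simp] Mi.h_h_q
@[simp] theorem Mi.r_h_h_q (z : A) : s.h * (s.q * z) = s.h * z := by
  rw [← mul_assoc, s.h_h_q]
attribute [simp] Mi.h_hi_q
@[simp] theorem Mi.r_h_hi_q (z : A) : s.h' * (s.q * z) = s.h' * z := by
  rw [← mul_assoc, s.h_hi_q]
attribute [simp] Mi.h_q_hi
@[simp] theorem Mi.r_h_q_hi (z : A) : s.q * (s.h' * z) = s.h' * z := by
  rw [← mul_assoc, s.h_q_hi]
attribute [simp] Mi.h_gi_g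
@[simp] theorem Mi.r_h_gi_g (z : A) : s.g' * (s.g * z) = z := by
  rw [← mul_assoc, s.h_gi_g]; exact one_mul z
attribute [simp] Mi.h_hi_h
@[simp] theorem Mi.r_h_hi_h (z : A) : s.h' * (s.h * z) = s.q * z := by
  rw [← mul_assoc, s.h_hi_h]
attribute [simp] Mi.h_gi_h
@[simp] theorem Mi.r_h_gi_h (z : A) : s.g' * (s.h * z) = 0 := by
  rw [← mul_assoc, s.h_gi_h]; exact zero_mul z
attribute [simp] Mi.h_hi_g
@[simp] theorem Mi.r_h_hi_g (z : A) : s.h' * (s.g * z) = 0 := by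
  rw [← mul_assoc, s.h_hi_g]; exact zero_mul z
@[simp] theorem Mi.d_a_g : s.a * s.g = 0 := by
  rw [← s.h_a_p, ← s.h_q_g, mul_assoc, ← mul_assoc s.p, s.h_p_q, zero_mul, mul_zero]
@[simp] theorem Mi.rd_a_g (z : A) : s.a * (s.g * z) = 0 := by
  rw [← mul_assoc, s.d_a_g, zero_mul]
@[simp] theorem Mi.d_a_h : s.a * s.h = 0 := by
  rw [← s.h_a_p, ← s.h_q_h, mul_assoc, ← mul_assoc s.p, s.h_p_q, zero_mul, mul_zero]
@[simp] theorem Mi.rd_a_h (z : A) : s.a * (s.h * z) = 0 := by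
  rw [← mul_assoc, s.d_a_h, zero_mul]
@[simp] theorem Mi.d_a_hi : s.a * s.h' = 0 := by
  rw [← s.h_a_p, ← s.h_q_hi, mul_assoc, ← mul_assoc s.p, s.h_p_q, zero_mul, mul_zero]
@[simp] theorem Mi.rd_a_hi (z : A) : s.a * (s.h' * z) = 0 := by
  rw [← mul_assoc, s.d_a_hi, zero_mul]
@[simp] theorem Mi.d_b_g : s.b * s.g = 0 := by
  rw [← s.h_b_p, ← s.h_q_g, mul_assoc, ← mul_assoc s.p, s.h_p_q, zero_mul, mul_zero]
@[simp] theorem Mi.rd_b_g (z : A) : s.b * (s.g * z) = 0 := by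
  rw [← mul_assoc, s.d_b_g, zero_mul]
@[simp] theorem Mi.d_b_h : s.b * s.h = 0 := by
  rw [← s.h_b_p, ← s.h_q_h, mul_assoc, ← mul_assoc s.p, s.h_p_q, zero_mul, mul_zero]
@[simp] theorem Mi.rd_b_h (z : A) : s.b * (s.h * z) = 0 := by
  rw [← mul_assoc, s.d_b_h, zero_mul]
@[simp] theorem Mi.d_b_hi : s.b * s.h' = 0 := by
  rw [← s.h_b_p, ← s.h_q_hi, mul_assoc, ← mul_assoc s.p, s.h_p_q, zero_mul, mul_zero]
@[simp] theorem Mi.rd_b_hi (z : A) : s.b * (s.h' * z) = 0 := by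
  rw [← mul_assoc, s.d_b_hi, zero_mul]
@[simp] theorem Mi.d_ai_g : s.a' * s.g = 0 := by
  rw [← s.h_ai_p, ← s.h_q_g, mul_assoc, ← mul_assoc s.p, s.h_p_q, zero_mul, mul_zero]
@[simp] theorem Mi.rd_ai_g (z : A) : s.a' * (s.g * z) = 0 := by
  rw [← mul_assoc, s.d_ai_g, zero_mul]
@[simp] theorem Mi.d_ai_h : s.a' * s.h = 0 := by
  rw [← s.h_ai_p, ← s.h_q_h, mul_assoc, ← mul_assoc s.p, s.h_p_q, zero_mul, mul_zero]
@[simp] theorem Mi.rd_ai_h (z : A) : s.a' * (s.h * z) = 0 := by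
  rw [← mul_assoc, s.d_ai_h, zero_mul]
@[simp] theorem Mi.d_ai_hi : s.a' * s.h' = 0 := by
  rw [← s.h_ai_p, ← s.h_q_hi, mul_assoc, ← mul_assoc s.p, s.h_p_q, zero_mul, mul_zero]
@[simp] theorem Mi.rd_ai_hi (z : A) : s.a' * (s.h' * z) = 0 := by
  rw [← mul_assoc, s.d_ai_hi, zero_mul]
@[simp] theorem Mi.d_bi_g : s.b' * s.g = 0 := by
  rw [← s.h_bi_p, ← s.h_q_g, mul_assoc, ← mul_assoc s.p, s.h_p_q, zero_mul, mul_zero]
@[simp] theorem Mi.rd_bi_g (z : A) : s.b' * (s.g * z) = 0 := by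
  rw [← mul_assoc, s.d_bi_g, zero_mul]
@[simp] theorem Mi.d_bi_h : s.b' * s.h = 0 := by
  rw [← s.h_bi_p, ← s.h_q_h, mul_assoc, ← mul_assoc s.p, s.h_p_q, zero_mul, mul_zero]
@[simp] theorem Mi.rd_bi_h (z : A) : s.b' * (s.h * z) = 0 := by
  rw [← mul_assoc, s.d_bi_h, zero_mul]
@[simp] theorem Mi.d_bi_hi : s.b' * s.h' = 0 := by
  rw [← s.h_bi_p, ← s.h_q_hi, mul_assoc, ← mul_assoc s.p, s.h_p_q, zero_mul, mul_zero]
@[simp] theorem Mi.rd_bi_hi (z : A) : s.b' * (s.h' * z) = 0 := by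
  rw [← mul_assoc, s.d_bi_hi, zero_mul]
@[simp] theorem Mi.d_ci_g : s.c' * s.g = 0 := by
  rw [← s.h_ci_p, ← s.h_q_g, mul_assoc, ← mul_assoc s.p, s.h_p_q, zero_mul, mul_zero]
@[simp] theorem Mi.rd_ci_g (z : A) : s.c' * (s.g * z) = 0 := by
  rw [← mul_assoc, s.d_ci_g, zero_mul]
@[simp] theorem Mi.d_ci_h : s.c' * s.h = 0 := by
  rw [← s.h_ci_p, ← s.h_q_h, mul_assoc, ← mul_assoc s.p, s.h_p_q, zero_mul, mul_zero]
@[simp] theorem Mi.rd_ci_h (z : A) : s.c' * (s.h * z) = 0 := by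
  rw [← mul_assoc, s.d_ci_h, zero_mul]
@[simp] theorem Mi.d_ci_hi : s.c' * s.h' = 0 := by
  rw [← s.h_ci_p, ← s.h_q_hi, mul_assoc, ← mul_assoc s.p, s.h_p_q, zero_mul, mul_zero]
@[simp] theorem Mi.rd_ci_hi (z : A) : s.c' * (s.h' * z) = 0 := by
  rw [← mul_assoc, s.d_ci_hi, zero_mul]
@[simp] theorem Mi.d_gi_a : s.g' * s.a = 0 := by
  rw [← s.h_gi_q, ← s.h_p_a, mul_assoc, ← mul_assoc s.q, s.h_q_p, zero_mul, mul_zero]
@[simp] theorem Mi.rd_gi_a (z : A) : s.g' * (s.a * z) = 0 := by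
  rw [← mul_assoc, s.d_gi_a, zero_mul]
@[simp] theorem Mi.d_gi_b : s.g' * s.b = 0 := by
  rw [← s.h_gi_q, ← s.h_p_b, mul_assoc, ← mul_assoc s.q, s.h_q_p, zero_mul, mul_zero]
@[simp] theorem Mi.rd_gi_b (z : A) : s.g' * (s.b * z) = 0 := by
  rw [← mul_assoc, s.d_gi_b, zero_mul]
@[simp] theorem Mi.d_gi_c : s.g' * s.c = 0 := by
  rw [← s.h_gi_q, ← s.h_p_c, mul_assoc, ← mul_assoc s.q, s.h_q_p, zero_mul, mul_zero]
@[simp] theorem Mi.rd_gi_c (z : A) : s.g' * (s.c * z) = 0 := by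
  rw [← mul_assoc, s.d_gi_c, zero_mul]
@[simp] theorem Mi.d_gi_ai : s.g' * s.a' = 0 := by
  rw [← s.h_gi_q, ← s.h_p_ai, mul_assoc, ← mul_assoc s.q, s.h_q_p, zero_mul, mul_zero]
@[simp] theorem Mi.rd_gi_ai (z : A) : s.g' * (s.a' * z) = 0 := by
  rw [← mul_assoc, s.d_gi_ai, zero_mul]
@[simp] theorem Mi.d_gi_bi : s.g' * s.b' = 0 := by
  rw [← s.h_gi_q, ← s.h_p_bi, mul_assoc, ← mul_assoc s.q, s.h_q_p, zero_mul, mul_zero]
@[simp] theorem Mi.rd_gi_bi (z : A) : s.g' * (s.b' * z) = 0 := by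
  rw [← mul_assoc, s.d_gi_bi, zero_mul]
@[simp] theorem Mi.d_h_a : s.h * s.a = 0 := by
  rw [← s.h_h_q, ← s.h_p_a, mul_assoc, ← mul_assoc s.q, s.h_q_p, zero_mul, mul_zero]
@[simp] theorem Mi.rd_h_a (z : A) : s.h * (s.a * z) = 0 := by
  rw [← mul_assoc, s.d_h_a, zero_mul]
@[simp] theorem Mi.d_h_b : s.h * s.b = 0 := by
  rw [← s.h_h_q, ← s.h_p_b, mul_assoc, ← mul_assoc s.q, s.h_q_p, zero_mul, mul_zero]
@[simp] theorem Mi.rd_h_b (z : A) : s.h * (s.b * z) = 0 := by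
  rw [← mul_assoc, s.d_h_b, zero_mul]
@[simp] theorem Mi.d_h_c : s.h * s.c = 0 := by
  rw [← s.h_h_q, ← s.h_p_c, mul_assoc, ← mul_assoc s.q, s.h_q_p, zero_mul, mul_zero]
@[simp] theorem Mi.rd_h_c (z : A) : s.h * (s.c * z) = 0 := by
  rw [← mul_assoc, s.d_h_c, zero_mul]
@[simp] theorem Mi.d_h_ai : s.h * s.a' = 0 := by
  rw [← s.h_h_q, ← s.h_p_ai, mul_assoc, ← mul_assoc s.q, s.h_q_p, zero_mul, mul_zero]
@[simp] theorem Mi.rd_h_ai (z : A) : s.h * (s.a' * z) = 0 := by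
  rw [← mul_assoc, s.d_h_ai, zero_mul]
@[simp] theorem Mi.d_h_bi : s.h * s.b' = 0 := by
  rw [← s.h_h_q, ← s.h_p_bi, mul_assoc, ← mul_assoc s.q, s.h_q_p, zero_mul, mul_zero]
@[simp] theorem Mi.rd_h_bi (z : A) : s.h * (s.b' * z) = 0 := by
  rw [← mul_assoc, s.d_h_bi, zero_mul]
@[simp] theorem Mi.d_hi_a : s.h' * s.a = 0 := by
  rw [← s.h_hi_q, ← s.h_p_a, mul_assoc, ← mul_assoc s.q, s.h_q_p, zero_mul, mul_zero]
@[simp] theorem Mi.rd_hi_a (z : A) : s.h' * (s.a * z) = 0 := by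
  rw [← mul_assoc, s.d_hi_a, zero_mul]
@[simp] theorem Mi.d_hi_b : s.h' * s.b = 0 := by
  rw [← s.h_hi_q, ← s.h_p_b, mul_assoc, ← mul_assoc s.q, s.h_q_p, zero_mul, mul_zero]
@[simp] theorem Mi.rd_hi_b (z : A) : s.h' * (s.b * z) = 0 := by
  rw [← mul_assoc, s.d_hi_b, zero_mul]
@[simp] theorem Mi.d_hi_c : s.h' * s.c = 0 := by
  rw [← s.h_hi_q, ← s.h_p_c, mul_assoc, ← mul_assoc s.q, s.h_q_p, zero_mul, mul_zero]
@[simp] theorem Mi.rd_hi_c (z : A) : s.h' * (s.c * z) = 0 := by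
  rw [← mul_assoc, s.d_hi_c, zero_mul]
@[simp] theorem Mi.d_hi_ai : s.h' * s.a' = 0 := by
  rw [← s.h_hi_q, ← s.h_p_ai, mul_assoc, ← mul_assoc s.q, s.h_q_p, zero_mul, mul_zero]
@[simp] theorem Mi.rd_hi_ai (z : A) : s.h' * (s.a' * z) = 0 := by
  rw [← mul_assoc, s.d_hi_ai, zero_mul]
@[simp] theorem Mi.d_hi_bi : s.h' * s.b' = 0 := by
  rw [← s.h_hi_q, ← s.h_p_bi, mul_assoc, ← mul_assoc s.q, s.h_q_p, zero_mul, mul_zero]
@[simp] theorem Mi.rd_hi_bi (z : A) : s.h' * (s.b' * z) = 0 := by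
  rw [← mul_assoc, s.d_hi_bi, zero_mul]
@[simp] theorem Mi.d_p_g : s.p * s.g = 0 := by
  rw [← s.h_q_g, ← mul_assoc s.p, s.h_p_q, zero_mul]
@[simp] theorem Mi.rd_p_g (z : A) : s.p * (s.g * z) = 0 := by
  rw [← mul_assoc, s.d_p_g, zero_mul]
@[simp] theorem Mi.d_p_h : s.p * s.h = 0 := by
  rw [← s.h_q_h, ← mul_assoc s.p, s.h_p_q, zero_mul]
@[simp] theorem Mi.rd_p_h (z : A) : s.p * (s.h * z) = 0 := by
  rw [← mul_assoc, s.d_p_h, zero_mul]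
@[simp] theorem Mi.d_p_hi : s.p * s.h' = 0 := by
  rw [← s.h_q_hi, ← mul_assoc s.p, s.h_p_q, zero_mul]
@[simp] theorem Mi.rd_p_hi (z : A) : s.p * (s.h' * z) = 0 := by
  rw [← mul_assoc, s.d_p_hi, zero_mul]
@[simp] theorem Mi.d_gi_p : s.g' * s.p = 0 := by
  rw [← s.h_gi_q, mul_assoc, s.h_q_p, mul_zero]
@[simp] theorem Mi.rd_gi_p (z : A) : s.g' * (s.p * z) = 0 := by
  rw [← mul_assoc, s.d_gi_p, zero_mul]
@[simp] theorem Mi.d_h_p : s.h * s.p = 0 := by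
  rw [← s.h_h_q, mul_assoc, s.h_q_p, mul_zero]
@[simp] theorem Mi.rd_h_p (z : A) : s.h * (s.p * z) = 0 := by
  rw [← mul_assoc, s.d_h_p, zero_mul]
@[simp] theorem Mi.d_hi_p : s.h' * s.p = 0 := by
  rw [← s.h_hi_q, mul_assoc, s.h_q_p, mul_zero]
@[simp] theorem Mi.rd_hi_p (z : A) : s.h' * (s.p * z) = 0 := by
  rw [← mul_assoc, s.d_hi_p, zero_mul]
@[simp] theorem Mi.d_q_a : s.q * s.a = 0 := by
  rw [← s.h_p_a, ← mul_assoc s.q, s.h_q_p, zero_mul]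
@[simp] theorem Mi.rd_q_a (z : A) : s.q * (s.a * z) = 0 := by
  rw [← mul_assoc, s.d_q_a, zero_mul]
@[simp] theorem Mi.d_q_b : s.q * s.b = 0 := by
  rw [← s.h_p_b, ← mul_assoc s.q, s.h_q_p, zero_mul]
@[simp] theorem Mi.rd_q_b (z : A) : s.q * (s.b * z) = 0 := by
  rw [← mul_assoc, s.d_q_b, zero_mul]
@[simp] theorem Mi.d_q_c : s.q * s.c = 0 := by
  rw [← s.h_p_c, ← mul_assoc s.q, s.h_q_p, zero_mul]
@[simp] theorem Mi.rd_q_c (z : A) : s.q * (s.c * z) = 0 := by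
  rw [← mul_assoc, s.d_q_c, zero_mul]
@[simp] theorem Mi.d_q_ai : s.q * s.a' = 0 := by
  rw [← s.h_p_ai, ← mul_assoc s.q, s.h_q_p, zero_mul]
@[simp] theorem Mi.rd_q_ai (z : A) : s.q * (s.a' * z) = 0 := by
  rw [← mul_assoc, s.d_q_ai, zero_mul]
@[simp] theorem Mi.d_q_bi : s.q * s.b' = 0 := by
  rw [← s.h_p_bi, ← mul_assoc s.q, s.h_q_p, zero_mul]
@[simp] theorem Mi.rd_q_bi (z : A) : s.q * (s.b' * z) = 0 := by
  rw [← mul_assoc, s.d_q_bi, zero_mul]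
@[simp] theorem Mi.d_a_q : s.a * s.q = 0 := by
  rw [← s.h_a_p, mul_assoc, s.h_p_q, mul_zero]
@[simp] theorem Mi.rd_a_q (z : A) : s.a * (s.q * z) = 0 := by
  rw [← mul_assoc, s.d_a_q, zero_mul]
@[simp] theorem Mi.d_b_q : s.b * s.q = 0 := by
  rw [← s.h_b_p, mul_assoc, s.h_p_q, mul_zero]
@[simp] theorem Mi.rd_b_q (z : A) : s.b * (s.q * z) = 0 := by
  rw [← mul_assoc, s.d_b_q, zero_mul]
@[simp] theorem Mi.d_ai_q : s.a' * s.q = 0 := by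
  rw [← s.h_ai_p, mul_assoc, s.h_p_q, mul_zero]
@[simp] theorem Mi.rd_ai_q (z : A) : s.a' * (s.q * z) = 0 := by
  rw [← mul_assoc, s.d_ai_q, zero_mul]
@[simp] theorem Mi.d_bi_q : s.b' * s.q = 0 := by
  rw [← s.h_bi_p, mul_assoc, s.h_p_q, mul_zero]
@[simp] theorem Mi.rd_bi_q (z : A) : s.b' * (s.q * z) = 0 := by
  rw [← mul_assoc, s.d_bi_q, zero_mul]
@[simp] theorem Mi.d_ci_q : s.c' * s.q = 0 := by
  rw [← s.h_ci_p, mul_assoc, s.h_p_q, mul_zero]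
@[simp] theorem Mi.rd_ci_q (z : A) : s.c' * (s.q * z) = 0 := by
  rw [← mul_assoc, s.d_ci_q, zero_mul]
@[simp] theorem Mi.d_wi_a : s.w' * s.a = 0 := by
  rw [← s.h_p_a, ← mul_assoc, s.h_wi_p, zero_mul]
@[simp] theorem Mi.rd_wi_a (z : A) : s.w' * (s.a * z) = 0 := by
  rw [← mul_assoc, s.d_wi_a, zero_mul]
@[simp] theorem Mi.d_wi_b : s.w' * s.b = 0 := by
  rw [← s.h_p_b, ← mul_assoc, s.h_wi_p, zero_mul]
@[simp] theorem Mi.rd_wi_b (z : A) : s.w' * (s.b * z) = 0 := by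
  rw [← mul_assoc, s.d_wi_b, zero_mul]
@[simp] theorem Mi.d_wi_c : s.w' * s.c = 0 := by
  rw [← s.h_p_c, ← mul_assoc, s.h_wi_p, zero_mul]
@[simp] theorem Mi.rd_wi_c (z : A) : s.w' * (s.c * z) = 0 := by
  rw [← mul_assoc, s.d_wi_c, zero_mul]
@[simp] theorem Mi.d_wi_ai : s.w' * s.a' = 0 := by
  rw [← s.h_p_ai, ← mul_assoc, s.h_wi_p, zero_mul]
@[simp] theorem Mi.rd_wi_ai (z : A) : s.w' * (s.a' * z) = 0 := by
  rw [← mul_assoc, s.d_wi_ai, zero_mul]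
@[simp] theorem Mi.d_wi_bi : s.w' * s.b' = 0 := by
  rw [← s.h_p_bi, ← mul_assoc, s.h_wi_p, zero_mul]
@[simp] theorem Mi.rd_wi_bi (z : A) : s.w' * (s.b' * z) = 0 := by
  rw [← mul_assoc, s.d_wi_bi, zero_mul]
@[simp] theorem Mi.d_wi_g : s.w' * s.g = 0 := by
  rw [← s.h_q_g, ← mul_assoc, s.h_wi_q, zero_mul]
@[simp] theorem Mi.rd_wi_g (z : A) : s.w' * (s.g * z) = 0 := by
  rw [← mul_assoc, s.d_wi_g, zero_mul]
@[simp] theorem Mi.d_wi_h : s.w' * s.h = 0 := by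
  rw [← s.h_q_h, ← mul_assoc, s.h_wi_q, zero_mul]
@[simp] theorem Mi.rd_wi_h (z : A) : s.w' * (s.h * z) = 0 := by
  rw [← mul_assoc, s.d_wi_h, zero_mul]
@[simp] theorem Mi.d_wi_hi : s.w' * s.h' = 0 := by
  rw [← s.h_q_hi, ← mul_assoc, s.h_wi_q, zero_mul]
@[simp] theorem Mi.rd_wi_hi (z : A) : s.w' * (s.h' * z) = 0 := by
  rw [← mul_assoc, s.d_wi_hi, zero_mul]
@[simp] theorem Mi.d_a_w : s.a * s.w = 0 := by
  rw [← s.h_a_p, mul_assoc, s.h_p_w, mul_zero]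
@[simp] theorem Mi.rd_a_w (z : A) : s.a * (s.w * z) = 0 := by
  rw [← mul_assoc, s.d_a_w, zero_mul]
@[simp] theorem Mi.d_b_w : s.b * s.w = 0 := by
  rw [← s.h_b_p, mul_assoc, s.h_p_w, mul_zero]
@[simp] theorem Mi.rd_b_w (z : A) : s.b * (s.w * z) = 0 := by
  rw [← mul_assoc, s.d_b_w, zero_mul]
@[simp] theorem Mi.d_ai_w : s.a' * s.w = 0 := by
  rw [← s.h_ai_p, mul_assoc, s.h_p_w, mul_zero]
@[simp] theorem Mi.rd_ai_w (z : A) : s.a' * (s.w * z) = 0 := by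
  rw [← mul_assoc, s.d_ai_w, zero_mul]
@[simp] theorem Mi.d_bi_w : s.b' * s.w = 0 := by
  rw [← s.h_bi_p, mul_assoc, s.h_p_w, mul_zero]
@[simp] theorem Mi.rd_bi_w (z : A) : s.b' * (s.w * z) = 0 := by
  rw [← mul_assoc, s.d_bi_w, zero_mul]
@[simp] theorem Mi.d_ci_w : s.c' * s.w = 0 := by
  rw [← s.h_ci_p, mul_assoc, s.h_p_w, mul_zero]
@[simp] theorem Mi.rd_ci_w (z : A) : s.c' * (s.w * z) = 0 := by
  rw [← mul_assoc, s.d_ci_w, zero_mul]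
@[simp] theorem Mi.d_gi_w : s.g' * s.w = 0 := by
  rw [← s.h_gi_q, mul_assoc, s.h_q_w, mul_zero]
@[simp] theorem Mi.rd_gi_w (z : A) : s.g' * (s.w * z) = 0 := by
  rw [← mul_assoc, s.d_gi_w, zero_mul]
@[simp] theorem Mi.d_h_w : s.h * s.w = 0 := by
  rw [← s.h_h_q, mul_assoc, s.h_q_w, mul_zero]
@[simp] theorem Mi.rd_h_w (z : A) : s.h * (s.w * z) = 0 := by
  rw [← mul_assoc, s.d_h_w, zero_mul]
@[simp] theorem Mi.d_hi_w : s.h' * s.w = 0 := by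
  rw [← s.h_hi_q, mul_assoc, s.h_q_w, mul_zero]
@[simp] theorem Mi.rd_hi_w (z : A) : s.h' * (s.w * z) = 0 := by
  rw [← mul_assoc, s.d_hi_w, zero_mul]
attribute [simp] Mi.sw Mi.sc Mi.sh
@[simp] theorem Mi.rsw (z : A) : s.w * (s.w' * z) = z - s.p * z - s.q * z := by
  rw [← mul_assoc, s.sw]; simp only [sub_mul, one_mul, mul_assoc]
@[simp] theorem Mi.rsc (z : A) :
    s.c * (s.c' * z) = s.p * z - s.a * (s.a' * z) - s.b * (s.b' * z) := by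
  rw [← mul_assoc, s.sc]; simp only [sub_mul, one_mul, mul_assoc]
@[simp] theorem Mi.rsh (z : A) : s.h * (s.h' * z) = s.q * z - s.g * (s.g' * z) := by
  rw [← mul_assoc, s.sh]; simp only [sub_mul, one_mul, mul_assoc]

/-- the isomorphism `A = q A` -/
def Mi.t : A := s.g * s.b + s.g * (s.c * s.w') + s.q - s.g * (s.p * s.g') + s.g * (s.a * s.g')
def Mi.t' : A := s.b' * s.g' + s.w * (s.c' * s.g') + s.q - s.g * (s.p * s.g') +
  s.g * (s.a' * s.g')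

theorem Mi.ti_t : s.t' * s.t = 1 := by
  simp [Mi.t, Mi.t', mul_add, add_mul, mul_assoc, mul_sub, sub_mul]
  try abel

theorem Mi.t_ti : s.t * s.t' = s.q := by
  simp [Mi.t, Mi.t', mul_add, add_mul, mul_assoc, mul_sub, sub_mul]
  try abel

theorem Mi.q_t : s.q * s.t = s.t := by
  simp [Mi.t, Mi.t', mul_add, add_mul, mul_assoc, mul_sub, sub_mul]
  try abel

theorem Mi.ti_q : s.t' * s.q = s.t' := by
  simp [Mi.t, Mi.t', mul_add, add_mul, mul_assoc, mul_sub, sub_mul]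
  try abel

end

end Pool.Agent.SKZ
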