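import Pool.Agent.SKZ.Lv

/-!
# The intermediate structure
-/

set_option autoImplicit false
set_option linter.all false

universe u

namespace Pool.Agent.SKZ

open CKS

/-- a Leavitt family `L` and isomorphisms `A = P + A + A`, `P = P + P + A` -/
structure S1 (A : Type*) [Ring A] where
  L : Lv A
  p : A
  w : A
  w' : A
  r : A
  r' : A
  a : A
  b : A
  c : A
  a' : A
  b' : A
  c' : A
  h_p_p : p * p = p
  h_wi_w : w' * w = 1
  h_ri_r : r' * r = 1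
  h_wi_r : w' * r = 0
  h_ri_w : r' * w = 0
  h_p_w : p * w = 0
  h_p_r : p * r = 0
  h_wi_p : w' * p = 0
  h_ri_p : r' * p = 0
  h_p_a : p * a = a
  h_a_p : a * p = a
  h_p_b : p * b = b
  h_b_p : b * p = b
  h_p_c : p * c = c
  h_p_ai : p * a' = a'
  h_ai_p : a' * p = a'
  h_p_bi : p * b' = b'
  h_bi_p : b' * p = b'
  h_ci_p : c' * p = c'
  h_ai_a : a' * a = p
  h_bi_b : b' * b = p
  h_ci_c : c' * c = 1
  h_ai_b : a' * b = 0
  h_bi_a : b' * a = 0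
  h_ai_c : a' * c = 0
  h_ci_a : c' * a = 0
  h_bi_c : b' * c = 0
  h_ci_b : c' * b = 0
  sr : r * r' = 1 - p - w * w'
  sc : c * c' = p - a * a' - b * b'

section

variable {A : Type*} [Ring A] (s : S1 A)

attribute [simp] S1.h_p_p
@[simp] theorem S1.r_h_p_p (z : A) : s.p * (s.p * z) = s.p * z := by
  rw [← mul_assoc, s.h_p_p]
attribute [simp] S1.h_wi_w
@[simp] theorem S1.r_h_wi_w (z : A) : s.w' * (s.w * z) = z := by
  rw [← mul_assoc, s.h_wi_w]; exact one_mul z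
attribute [simp] S1.h_ri_r
@[simp] theorem S1.r_h_ri_r (z : A) : s.r' * (s.r * z) = z := by
  rw [← mul_assoc, s.h_ri_r]; exact one_mul z
attribute [simp] S1.h_wi_r
@[simp] theorem S1.r_h_wi_r (z : A) : s.w' * (s.r * z) = 0 := by
  rw [← mul_assoc, s.h_wi_r]; exact zero_mul z
attribute [simp] S1.h_ri_w
@[simp] theorem S1.r_h_ri_w (z : A) : s.r' * (s.w * z) = 0 := by
  rw [← mul_assoc, s.h_ri_w]; exact zero_mul z
attribute [simp] S1.h_p_w
@[simp] theorem S1.r_h_p_w (z : A) : s.p * (s.w * z) = 0 := by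
  rw [← mul_assoc, s.h_p_w]; exact zero_mul z
attribute [simp] S1.h_p_r
@[simp] theorem S1.r_h_p_r (z : A) : s.p * (s.r * z) = 0 := by
  rw [← mul_assoc, s.h_p_r]; exact zero_mul z
attribute [simp] S1.h_wi_p
@[simp] theorem S1.r_h_wi_p (z : A) : s.w' * (s.p * z) = 0 := by
  rw [← mul_assoc, s.h_wi_p]; exact zero_mul z
attribute [simp] S1.h_ri_p
@[simp] theorem S1.r_h_ri_p (z : A) : s.r' * (s.p * z) = 0 := by
  rw [← mul_assoc, s.h_ri_p]; exact zero_mul z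
attribute [simp] S1.h_p_a
@[simp] theorem S1.r_h_p_a (z : A) : s.p * (s.a * z) = s.a * z := by
  rw [← mul_assoc, s.h_p_a]
attribute [simp] S1.h_a_p
@[simp] theorem S1.r_h_a_p (z : A) : s.a * (s.p * z) = s.a * z := by
  rw [← mul_assoc, s.h_a_p]
attribute [simp] S1.h_p_b
@[simp] theorem S1.r_h_p_b (z : A) : s.p * (s.b * z) = s.b * z := by
  rw [← mul_assoc, s.h_p_b]
attribute [simp] S1.h_b_p
@[simp] theorem S1.r_h_b_p (z : A) : s.b * (s.p * z) = s.b * z := by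
  rw [← mul_assoc, s.h_b_p]
attribute [simp] S1.h_p_c
@[simp] theorem S1.r_h_p_c (z : A) : s.p * (s.c * z) = s.c * z := by
  rw [← mul_assoc, s.h_p_c]
attribute [simp] S1.h_p_ai
@[simp] theorem S1.r_h_p_ai (z : A) : s.p * (s.a' * z) = s.a' * z := by
  rw [← mul_assoc, s.h_p_ai]
attribute [simp] S1.h_ai_p
@[simp] theorem S1.r_h_ai_p (z : A) : s.a' * (s.p * z) = s.a' * z := by
  rw [← mul_assoc, s.h_ai_p]
attribute [simp] S1.h_p_bi
@[simp] theorem S1.r_h_p_bi (z : A) : s.p * (s.b' * z) = s.b' * z := by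
  rw [← mul_assoc, s.h_p_bi]
attribute [simp] S1.h_bi_p
@[simp] theorem S1.r_h_bi_p (z : A) : s.b' * (s.p * z) = s.b' * z := by
  rw [← mul_assoc, s.h_bi_p]
attribute [simp] S1.h_ci_p
@[simp] theorem S1.r_h_ci_p (z : A) : s.c' * (s.p * z) = s.c' * z := by
  rw [← mul_assoc, s.h_ci_p]
attribute [simp] S1.h_ai_a
@[simp] theorem S1.r_h_ai_a (z : A) : s.a' * (s.a * z) = s.p * z := by
  rw [← mul_assoc, s.h_ai_a]
attribute [simp] S1.h_bi_b
@[simp] theorem S1.r_h_bi_b (z : A) : s.b' * (s.b * z) = s.p * z := by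
  rw [← mul_assoc, s.h_bi_b]
attribute [simp] S1.h_ci_c
@[simp] theorem S1.r_h_ci_c (z : A) : s.c' * (s.c * z) = z := by
  rw [← mul_assoc, s.h_ci_c]; exact one_mul z
attribute [simp] S1.h_ai_b
@[simp] theorem S1.r_h_ai_b (z : A) : s.a' * (s.b * z) = 0 := by
  rw [← mul_assoc, s.h_ai_b]; exact zero_mul z
attribute [simp] S1.h_bi_a
@[simp] theorem S1.r_h_bi_a (z : A) : s.b' * (s.a * z) = 0 := by
  rw [← mul_assoc, s.h_bi_a]; exact zero_mul z
attribute [simp] S1.h_ai_c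
@[simp] theorem S1.r_h_ai_c (z : A) : s.a' * (s.c * z) = 0 := by
  rw [← mul_assoc, s.h_ai_c]; exact zero_mul z
attribute [simp] S1.h_ci_a
@[simp] theorem S1.r_h_ci_a (z : A) : s.c' * (s.a * z) = 0 := by
  rw [← mul_assoc, s.h_ci_a]; exact zero_mul z
attribute [simp] S1.h_bi_c
@[simp] theorem S1.r_h_bi_c (z : A) : s.b' * (s.c * z) = 0 := by
  rw [← mul_assoc, s.h_bi_c]; exact zero_mul z
attribute [simp] S1.h_ci_b
@[simp] theorem S1.r_h_ci_b (z : A) : s.c' * (s.b * z) = 0 := by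
  rw [← mul_assoc, s.h_ci_b]; exact zero_mul z
@[simp] theorem S1.d_wi_a : s.w' * s.a = 0 := by
  rw [← s.h_p_a, ← mul_assoc, s.h_wi_p, zero_mul]
@[simp] theorem S1.rd_wi_a (z : A) : s.w' * (s.a * z) = 0 := by
  rw [← mul_assoc, s.d_wi_a, zero_mul]
@[simp] theorem S1.d_wi_b : s.w' * s.b = 0 := by
  rw [← s.h_p_b, ← mul_assoc, s.h_wi_p, zero_mul]
@[simp] theorem S1.rd_wi_b (z : A) : s.w' * (s.b * z) = 0 := by
  rw [← mul_assoc, s.d_wi_b, zero_mul]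
@[simp] theorem S1.d_wi_c : s.w' * s.c = 0 := by
  rw [← s.h_p_c, ← mul_assoc, s.h_wi_p, zero_mul]
@[simp] theorem S1.rd_wi_c (z : A) : s.w' * (s.c * z) = 0 := by
  rw [← mul_assoc, s.d_wi_c, zero_mul]
@[simp] theorem S1.d_ri_a : s.r' * s.a = 0 := by
  rw [← s.h_p_a, ← mul_assoc, s.h_ri_p, zero_mul]
@[simp] theorem S1.rd_ri_a (z : A) : s.r' * (s.a * z) = 0 := by
  rw [← mul_assoc, s.d_ri_a, zero_mul]
@[simp] theorem S1.d_ri_b : s.r' * s.b = 0 := by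
  rw [← s.h_p_b, ← mul_assoc, s.h_ri_p, zero_mul]
@[simp] theorem S1.rd_ri_b (z : A) : s.r' * (s.b * z) = 0 := by
  rw [← mul_assoc, s.d_ri_b, zero_mul]
@[simp] theorem S1.d_ri_c : s.r' * s.c = 0 := by
  rw [← s.h_p_c, ← mul_assoc, s.h_ri_p, zero_mul]
@[simp] theorem S1.rd_ri_c (z : A) : s.r' * (s.c * z) = 0 := by
  rw [← mul_assoc, s.d_ri_c, zero_mul]
@[simp] theorem S1.d_wi_ai : s.w' * s.a' = 0 := by
  rw [← s.h_p_ai, ← mul_assoc, s.h_wi_p, zero_mul]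
@[simp] theorem S1.rd_wi_ai (z : A) : s.w' * (s.a' * z) = 0 := by
  rw [← mul_assoc, s.d_wi_ai, zero_mul]
@[simp] theorem S1.d_wi_bi : s.w' * s.b' = 0 := by
  rw [← s.h_p_bi, ← mul_assoc, s.h_wi_p, zero_mul]
@[simp] theorem S1.rd_wi_bi (z : A) : s.w' * (s.b' * z) = 0 := by
  rw [← mul_assoc, s.d_wi_bi, zero_mul]
@[simp] theorem S1.d_ri_ai : s.r' * s.a' = 0 := by
  rw [← s.h_p_ai, ← mul_assoc, s.h_ri_p, zero_mul]
@[simp] theorem S1.rd_ri_ai (z : A) : s.r' * (s.a' * z) = 0 := by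
  rw [← mul_assoc, s.d_ri_ai, zero_mul]
@[simp] theorem S1.d_ri_bi : s.r' * s.b' = 0 := by
  rw [← s.h_p_bi, ← mul_assoc, s.h_ri_p, zero_mul]
@[simp] theorem S1.rd_ri_bi (z : A) : s.r' * (s.b' * z) = 0 := by
  rw [← mul_assoc, s.d_ri_bi, zero_mul]
@[simp] theorem S1.d_a_w : s.a * s.w = 0 := by
  rw [← s.h_a_p, mul_assoc, s.h_p_w, mul_zero]
@[simp] theorem S1.rd_a_w (z : A) : s.a * (s.w * z) = 0 := by
  rw [← mul_assoc, s.d_a_w, zero_mul]
@[simp] theorem S1.d_b_w : s.b * s.w = 0 := by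
  rw [← s.h_b_p, mul_assoc, s.h_p_w, mul_zero]
@[simp] theorem S1.rd_b_w (z : A) : s.b * (s.w * z) = 0 := by
  rw [← mul_assoc, s.d_b_w, zero_mul]
@[simp] theorem S1.d_a_r : s.a * s.r = 0 := by
  rw [← s.h_a_p, mul_assoc, s.h_p_r, mul_zero]
@[simp] theorem S1.rd_a_r (z : A) : s.a * (s.r * z) = 0 := by
  rw [← mul_assoc, s.d_a_r, zero_mul]
@[simp] theorem S1.d_b_r : s.b * s.r = 0 := by
  rw [← s.h_b_p, mul_assoc, s.h_p_r, mul_zero]
@[simp] theorem S1.rd_b_r (z : A) : s.b * (s.r * z) = 0 := by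
  rw [← mul_assoc, s.d_b_r, zero_mul]
@[simp] theorem S1.d_ai_w : s.a' * s.w = 0 := by
  rw [← s.h_ai_p, mul_assoc, s.h_p_w, mul_zero]
@[simp] theorem S1.rd_ai_w (z : A) : s.a' * (s.w * z) = 0 := by
  rw [← mul_assoc, s.d_ai_w, zero_mul]
@[simp] theorem S1.d_ai_r : s.a' * s.r = 0 := by
  rw [← s.h_ai_p, mul_assoc, s.h_p_r, mul_zero]
@[simp] theorem S1.rd_ai_r (z : A) : s.a' * (s.r * z) = 0 := by
  rw [← mul_assoc, s.d_ai_r, zero_mul]
@[simp] theorem S1.d_bi_w : s.b' * s.w = 0 := by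
  rw [← s.h_bi_p, mul_assoc, s.h_p_w, mul_zero]
@[simp] theorem S1.rd_bi_w (z : A) : s.b' * (s.w * z) = 0 := by
  rw [← mul_assoc, s.d_bi_w, zero_mul]
@[simp] theorem S1.d_bi_r : s.b' * s.r = 0 := by
  rw [← s.h_bi_p, mul_assoc, s.h_p_r, mul_zero]
@[simp] theorem S1.rd_bi_r (z : A) : s.b' * (s.r * z) = 0 := by
  rw [← mul_assoc, s.d_bi_r, zero_mul]
@[simp] theorem S1.d_ci_w : s.c' * s.w = 0 := by
  rw [← s.h_ci_p, mul_assoc, s.h_p_w, mul_zero]
@[simp] theorem S1.rd_ci_w (z : A) : s.c' * (s.w * z) = 0 := by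
  rw [← mul_assoc, s.d_ci_w, zero_mul]
@[simp] theorem S1.d_ci_r : s.c' * s.r = 0 := by
  rw [← s.h_ci_p, mul_assoc, s.h_p_r, mul_zero]
@[simp] theorem S1.rd_ci_r (z : A) : s.c' * (s.r * z) = 0 := by
  rw [← mul_assoc, s.d_ci_r, zero_mul]
attribute [simp] S1.sr S1.sc
@[simp] theorem S1.rsr (z : A) : s.r * (s.r' * z) = z - s.p * z - s.w * (s.w' * z) := by
  rw [← mul_assoc, s.sr]; simp only [sub_mul, one_mul, mul_assoc]
@[simp] theorem S1.rsc (z : A) :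
    s.c * (s.c' * z) = s.p * z - s.a * (s.a' * z) - s.b * (s.b' * z) := by
  rw [← mul_assoc, s.sc]; simp only [sub_mul, one_mul, mul_assoc]

/-- the second Leavitt family: `W : A = (1 - p) A` -/
def S1.W : A := s.w * s.L.y1 + s.r * s.L.y2
def S1.W' : A := s.L.x1 * s.w' + s.L.x2 * s.r'
def S1.B : A := s.b + s.c * s.W'
def S1.B' : A := s.b' + s.W * s.c'
def S1.D : A := s.a + s.B * s.W'
def S1.D' : A := s.a' + s.W * s.B'

/-- the second Leavitt family -/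
def S1.M : Lv A where
  x1 := s.D
  x2 := s.W
  y1 := s.D'
  y2 := s.W'
  h11 := by
    simp [S1.D, S1.D', S1.B, S1.B', S1.W, S1.W', mul_add, add_mul, mul_assoc, mul_sub, sub_mul]
    try abel
  h22 := by
    simp [S1.D, S1.D', S1.B, S1.B', S1.W, S1.W', mul_add, add_mul, mul_assoc, mul_sub, sub_mul]
    try abel
  h12 := by
    simp [S1.D, S1.D', S1.B, S1.B', S1.W, S1.W', mul_add, add_mul, mul_assoc, mul_sub, sub_mul]
    try abel
  h21 := by
    simp [S1.D, S1.D', S1.B, S1.B', S1.W, S1.W', mul_add, add_mul, mul_assoc, mul_sub, sub_mul]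
    try abel
  hs := by
    simp [S1.D, S1.D', S1.B, S1.B', S1.W, S1.W', mul_add, add_mul, mul_assoc, mul_sub, sub_mul]
    try abel

end

end Pool.Agent.SKZ
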