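import Pool.Agent.SKZ.Bij

/-!
# The algebra with two universal Leavitt families
-/

set_option autoImplicit false
set_option linter.all false

universe u

namespace Pool.Agent.SKZ

open CKS

/-- `(U, i, s)` is the free product of `A` and `k[t, 1/t]`: `s` is a unit, and every homomorphism
from `A` to an algebra with a unit extends uniquely -/
def IsFreeUnit {k : Type u} [Field k] {A U : Type u} [Ring A] [Algebra k A] [Ring U] [Algebra k U]
    (i : A →ₐ[k] U) (s : Uˣ) : Prop :=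
  ∀ (C : Type u) [Ring C] [Algebra k C] (f : A →ₐ[k] C) (b : Cˣ),
    ∃! φ : U →ₐ[k] C, φ.comp i = f ∧ φ s = b

/-! ### two Leavitt families -/

/-- the relations -/
inductive R2 (k : Type u) [Field k] : FreeAlgebra k (Fin 2 × Fin 4) → FreeAlgebra k (Fin 2 × Fin 4) → Prop
  | h11 (i : Fin 2) : R2 k (FreeAlgebra.ι k (i, 2) * FreeAlgebra.ι k (i, 0)) 1
  | h22 (i : Fin 2) : R2 k (FreeAlgebra.ι k (i, 3) * FreeAlgebra.ι k (i, 1)) 1
  | h12 (i : Fin 2) : R2 k (FreeAlgebra.ι k (i, 2) * FreeAlgebra.ι k (i, 1)) 0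
  | h21 (i : Fin 2) : R2 k (FreeAlgebra.ι k (i, 3) * FreeAlgebra.ι k (i, 0)) 0
  | hs (i : Fin 2) : R2 k (FreeAlgebra.ι k (i, 0) * FreeAlgebra.ι k (i, 2) +
      FreeAlgebra.ι k (i, 1) * FreeAlgebra.ι k (i, 3)) 1

/-- the universal algebra -/
abbrev U2 (k : Type u) [Field k] : Type u := RingQuot (R2 k)

section U2

variable (k : Type u) [Field k]

/-- the generators -/
noncomputable def g2 (i : Fin 2) (j : Fin 4) : U2 k :=
  RingQuot.mkAlgHom k (R2 k) (FreeAlgebra.ι k (i, j))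

/-- the universal families -/
noncomputable def uL (i : Fin 2) : Lv (U2 k) where
  x1 := g2 k i 0
  x2 := g2 k i 1
  y1 := g2 k i 2
  y2 := g2 k i 3
  h11 := by simpa [g2] using RingQuot.mkAlgHom_rel k (R2.h11 (k := k) i)
  h22 := by simpa [g2] using RingQuot.mkAlgHom_rel k (R2.h22 (k := k) i)
  h12 := by simpa [g2] using RingQuot.mkAlgHom_rel k (R2.h12 (k := k) i)
  h21 := by simpa [g2] using RingQuot.mkAlgHom_rel k (R2.h21 (k := k) i)
  hs := by simpa [g2] using RingQuot.mkAlgHom_rel k (R2.hs (k := k) i)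

variable {k}
variable {C : Type*} [Ring C] [Algebra k C]

/-- the image of a family -/
def Lv.map {A : Type*} [Ring A] [Algebra k A] (φ : A →ₐ[k] C) (L : Lv A) : Lv C where
  x1 := φ L.x1
  x2 := φ L.x2
  y1 := φ L.y1
  y2 := φ L.y2
  h11 := by rw [← map_mul, L.h11, map_one]
  h22 := by rw [← map_mul, L.h22, map_one]
  h12 := by rw [← map_mul, L.h12, map_zero]
  h21 := by rw [← map_mul, L.h21, map_zero]
  hs := by rw [← map_mul, ← map_mul, ← map_add, L.hs, map_one]

/-- the components of a family -/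
def Lv.co {A : Type*} [Ring A] (L : Lv A) : Fin 4 → A := ![L.x1, L.x2, L.y1, L.y2]

theorem lift2_aux (L : Fin 2 → Lv C) : ∀ ⦃x y : FreeAlgebra k (Fin 2 × Fin 4)⦄, R2 k x y →
    FreeAlgebra.lift k (fun e : Fin 2 × Fin 4 => (L e.1).co e.2) x =
      FreeAlgebra.lift k (fun e : Fin 2 × Fin 4 => (L e.1).co e.2) y := by
  intro x y h
  induction h with
  | h11 i => simp [Lv.co]
  | h22 i => simp [Lv.co]
  | h12 i => simp [Lv.co]
  | h21 i => simp [Lv.co]
  | hs i => simp [Lv.co, -Lv.s, (L i).hs]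

/-- the homomorphism given by two families -/
noncomputable def lift2 (L : Fin 2 → Lv C) : U2 k →ₐ[k] C :=
  RingQuot.liftAlgHom k ⟨FreeAlgebra.lift k (fun e : Fin 2 × Fin 4 => (L e.1).co e.2), lift2_aux L⟩

theorem lift2_g (L : Fin 2 → Lv C) (i : Fin 2) (j : Fin 4) : lift2 L (g2 k i j) = (L i).co j := by
  unfold lift2 g2
  rw [RingQuot.liftAlgHom_mkAlgHom_apply]
  simp

theorem lift2_uL (L : Fin 2 → Lv C) (i : Fin 2) : (uL k i).map (lift2 L) = L i := by
  refine Lv.ext' ?_ ?_ ?_ ?_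
  · exact lift2_g L i 0
  · exact lift2_g L i 1
  · exact lift2_g L i 2
  · exact lift2_g L i 3

theorem ext2 {φ ψ : U2 k →ₐ[k] C} (h : ∀ i, (uL k i).map φ = (uL k i).map ψ) : φ = ψ := by
  refine RingQuot.ringQuot_ext' k φ ψ (FreeAlgebra.hom_ext ?_)
  funext ⟨i, j⟩
  have h1 : φ (g2 k i 0) = ψ (g2 k i 0) := congrArg Lv.x1 (h i)
  have h2 : φ (g2 k i 1) = ψ (g2 k i 1) := congrArg Lv.x2 (h i)
  have h3 : φ (g2 k i 2) = ψ (g2 k i 2) := congrArg Lv.y1 (h i)
  have h4 : φ (g2 k i 3) = ψ (g2 k i 3) := congrArg Lv.y2 (h i)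
  fin_cases j
  · exact h1
  · exact h2
  · exact h3
  · exact h4

end U2

/-! ### naturality -/

section Nat

variable {k : Type u} [Field k] {A C : Type*} [Ring A] [Algebra k A] [Ring C] [Algebra k C]
  (φ : A →ₐ[k] C)

/-- the image of a family -/
def Fmap {V E : Type} {G : CKS.Graph V E} {Reg : V → Prop} (F : Fam k G Reg A) : Fam k G Reg C where
  p a := φ (F.p a)
  x e := φ (F.x e)
  y e := φ (F.y e)
  idem a := by rw [← map_mul, F.idem]
  orth a b h := by rw [← map_mul, F.orth a b h, map_zero]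
  se e := by rw [← map_mul, F.se]
  er e := by rw [← map_mul, F.er]
  rg e := by rw [← map_mul, F.rg]
  gs e := by rw [← map_mul, F.gs]
  ge e := by rw [← map_mul, F.ge]
  gf e f h := by rw [← map_mul, F.gf e f h, map_zero]
  ck a h S hS := by
    simp only [← map_mul]
    rw [← map_sum, F.ck a h S hS]
  one S hS := by rw [← map_sum, F.one S hS, map_one]

theorem back_map (L M : Lv A) : back k (L.map φ) (M.map φ) = Fmap φ (back k L M) := by
  refine Fam.ext' (fun a => ?_) (fun e => ?_) (fun e => ?_)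
  · rcases a with a | a <;> fin_cases a <;> simp [back, Lv.map, Fmap, -Lv.s, -Lv.sr]
  · rcases e with e | e <;> fin_cases e <;> simp [back, Lv.map, Fmap, -Lv.s, -Lv.sr]
  · rcases e with e | e <;> fin_cases e <;> simp [back, Lv.map, Fmap, -Lv.s, -Lv.sr]

theorem t_map (F : Fam k Gm Gm.IsReg A) : (mi (Fmap φ F)).t = φ (mi F).t := by
  simp [Mi.t, mi, Fmap, fw, fw', -Mi.sw, -Mi.sc, -Mi.sh]

theorem t'_map (F : Fam k Gm Gm.IsReg A) : (mi (Fmap φ F)).t' = φ (mi F).t' := by
  simp [Mi.t', mi, Fmap, fw, fw', -Mi.sw, -Mi.sc, -Mi.sh]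

theorem bu_map (L M : Lv A) : bu k (L.map φ) (M.map φ) = Units.map (φ : A →* C) (bu k L M) := by
  refine Units.ext ?_
  show (mi (back k (L.map φ) (M.map φ))).t' * (φ M.x2 * φ L.x2) =
    φ ((mi (back k L M)).t' * (M.x2 * L.x2))
  rw [back_map, t'_map, map_mul, map_mul]

theorem fwd_map_L (F : Fam k Gm Gm.IsReg A) (u : Aˣ) :
    (fwd (Fmap φ F) (Units.map (φ : A →* C) u)).L = (fwd F u).L.map φ := by
  obtain ⟨L, M, hF, hu⟩ : ∃ L M : Lv A, back k L M = F ∧ bu k L M = u :=
    ⟨_, _, back_fwd F u, bu_fwd F u⟩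
  rw [← hF, ← hu, ← back_map, ← bu_map, fwd_L, fwd_L]

theorem fwd_map_M (F : Fam k Gm Gm.IsReg A) (u : Aˣ) :
    (fwd (Fmap φ F) (Units.map (φ : A →* C) u)).M = (fwd F u).M.map φ := by
  obtain ⟨L, M, hF, hu⟩ : ∃ L M : Lv A, back k L M = F ∧ bu k L M = u :=
    ⟨_, _, back_fwd F u, bu_fwd F u⟩
  rw [← hF, ← hu, ← back_map, ← bu_map, fwd_M, fwd_M]

end Nat

/-- `U2` is the free product of `L_{2-}` and `k[t, 1/t]` -/
theorem free_minus (k : Type u) [Field k] :
    IsFreeUnit (k := k) (back k (uL k 0) (uL k 1)).lift (bu k (uL k 0) (uL k 1)) := by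
  intro C _ _ f b
  have hF : ∀ φ : U2 k →ₐ[k] C, φ.comp (back k (uL k 0) (uL k 1)).lift = f ↔
      Fmap φ (back k (uL k 0) (uL k 1)) = Fmap f (taut k Gm Gm.IsReg) := by
    intro φ
    constructor
    · intro h
      refine Fam.ext' (fun a => ?_) (fun e => ?_) (fun e => ?_)
      · show φ ((back k (uL k 0) (uL k 1)).p a) = f (vt a)
        rw [← h, AlgHom.comp_apply, lift_vt]
      · show φ ((back k (uL k 0) (uL k 1)).x e) = f (ed e)
        rw [← h, AlgHom.comp_apply, lift_ed]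
      · show φ ((back k (uL k 0) (uL k 1)).y e) = f (gh e)
        rw [← h, AlgHom.comp_apply, lift_gh]
    · intro h
      refine hom_ext (fun a => ?_) (fun e => ?_) (fun e => ?_)
      · rw [AlgHom.comp_apply, lift_vt]
        exact congrArg (fun F : Fam k Gm Gm.IsReg C => F.p a) h
      · rw [AlgHom.comp_apply, lift_ed]
        exact congrArg (fun F : Fam k Gm Gm.IsReg C => F.x e) h
      · rw [AlgHom.comp_apply, lift_gh]
        exact congrArg (fun F : Fam k Gm Gm.IsReg C => F.y e) h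
  have hb : ∀ φ : U2 k →ₐ[k] C, φ (bu k (uL k 0) (uL k 1) : U2 k) = b ↔
      Units.map (φ : U2 k →* C) (bu k (uL k 0) (uL k 1)) = b :=
    fun φ => ⟨fun h => Units.ext h, fun h => congrArg Units.val h⟩
  refine ⟨lift2 ![(fwd (Fmap f (taut k Gm Gm.IsReg)) b).L,
    (fwd (Fmap f (taut k Gm Gm.IsReg)) b).M], ⟨?_, ?_⟩, ?_⟩
  · rw [hF, ← back_map, lift2_uL, lift2_uL]
    exact back_fwd _ b
  · rw [hb, ← bu_map, lift2_uL, lift2_uL]
    exact bu_fwd _ b
  · rintro φ ⟨h1, h2⟩
    rw [hF] at h1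
    rw [hb] at h2
    refine ext2 (fun i => ?_)
    rw [lift2_uL]
    fin_cases i
    · show (uL k 0).map φ = (fwd (Fmap f (taut k Gm Gm.IsReg)) b).L
      rw [← h1, ← h2, fwd_map_L, fwd_L]
    · show (uL k 1).map φ = (fwd (Fmap f (taut k Gm Gm.IsReg)) b).M
      rw [← h1, ← h2, fwd_map_M, fwd_M]

/-! ### the rose -/

section Rose

variable {k : Type u} [Field k] {A C : Type*} [Ring A] [Algebra k A] [Ring C] [Algebra k C]

variable (k) in
/-- the family of the rose -/
def rose (L : Lv A) : Fam k G2 G2.IsReg A where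
  p _ := 1
  x := ![L.x1, L.x2]
  y := ![L.y1, L.y2]
  idem a := by simp
  orth a b h := absurd (Subsingleton.elim a b) h
  se e := by simp
  er e := by simp
  rg e := by simp
  gs e := by simp
  ge e := by fin_cases e <;> simp
  gf e f h := by
    fin_cases e <;> fin_cases f <;>
      first
        | exact absurd rfl h
        | simp
  ck a ha S hS := by
    have hS' : S = Finset.univ := by
      ext e; simp [hS, Subsingleton.elim (G2.s e) a]
    subst hS'
    simp [Fin.sum_univ_two]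
  one S hS := by
    have hS' : S = Finset.univ := by
      ext e
      exact ⟨fun _ => Finset.mem_univ _, fun _ => hS e⟩
    subst hS'
    simp

theorem p_one (F : Fam k G2 G2.IsReg A) (a : Fin 1) : F.p a = 1 := by
  have h := F.one Finset.univ (fun a => Finset.mem_univ a)
  rw [Subsingleton.elim a 0]
  simpa using h

/-- the Leavitt family of a family of the rose -/
def unrose (F : Fam k G2 G2.IsReg A) : Lv A where
  x1 := F.x 0
  x2 := F.x 1
  y1 := F.y 0
  y2 := F.y 1
  h11 := by rw [F.ge, p_one]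
  h22 := by rw [F.ge, p_one]
  h12 := F.gf 0 1 (by decide)
  h21 := F.gf 1 0 (by decide)
  hs := by
    have h := F.ck 0 ⟨0, rfl⟩ Finset.univ (fun e => by simp [Subsingleton.elim (G2.s e) 0])
    rw [p_one] at h
    simpa [Fin.sum_univ_two] using h

/-- the second Leavitt family given by a unit -/
def twist (L : Lv A) (u : Aˣ) : Lv A where
  x1 := u * L.x1
  x2 := u * L.x2
  y1 := L.y1 * ↑u⁻¹
  y2 := L.y2 * ↑u⁻¹
  h11 := by rw [mul_assoc, ← mul_assoc (↑u⁻¹ : A), Units.inv_mul, one_mul, L.h11]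
  h22 := by rw [mul_assoc, ← mul_assoc (↑u⁻¹ : A), Units.inv_mul, one_mul, L.h22]
  h12 := by rw [mul_assoc, ← mul_assoc (↑u⁻¹ : A), Units.inv_mul, one_mul, L.h12]
  h21 := by rw [mul_assoc, ← mul_assoc (↑u⁻¹ : A), Units.inv_mul, one_mul, L.h21]
  hs := by
    rw [show (u : A) * L.x1 * (L.y1 * ↑u⁻¹) + u * L.x2 * (L.y2 * ↑u⁻¹) =
      u * (L.x1 * L.y1 + L.x2 * L.y2) * ↑u⁻¹ by noncomm_ring, L.hs, mul_one, Units.mul_inv]

/-- the unit given by two families -/
def quot (L M : Lv A) : Aˣ where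
  val := M.x1 * L.y1 + M.x2 * L.y2
  inv := L.x1 * M.y1 + L.x2 * M.y2
  val_inv := by
    simp only [mul_add, add_mul, mul_assoc, Lv.r11, Lv.r12, Lv.r21, Lv.r22, mul_zero, add_zero,
      zero_add]
    exact M.hs
  inv_val := by
    simp only [mul_add, add_mul, mul_assoc, Lv.r11, Lv.r12, Lv.r21, Lv.r22, mul_zero, add_zero,
      zero_add]
    exact L.hs

theorem twist_quot (L M : Lv A) : twist L (quot L M) = M := by
  refine Lv.ext' ?_ ?_ ?_ ?_
  · show (M.x1 * L.y1 + M.x2 * L.y2) * L.x1 = M.x1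
    simp [add_mul, mul_assoc]
  · show (M.x1 * L.y1 + M.x2 * L.y2) * L.x2 = M.x2
    simp [add_mul, mul_assoc]
  · show L.y1 * (L.x1 * M.y1 + L.x2 * M.y2) = M.y1
    simp [mul_add]
  · show L.y2 * (L.x1 * M.y1 + L.x2 * M.y2) = M.y2
    simp [mul_add]

theorem quot_twist (L : Lv A) (u : Aˣ) : quot L (twist L u) = u := by
  refine Units.ext ?_
  show (u : A) * L.x1 * L.y1 + u * L.x2 * L.y2 = u
  rw [mul_assoc, mul_assoc, ← mul_add, L.hs, mul_one]

theorem rose_map (φ : A →ₐ[k] C) (L : Lv A) : rose k (L.map φ) = Fmap φ (rose k L) := by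
  refine Fam.ext' (fun a => ?_) (fun e => ?_) (fun e => ?_)
  · simp [rose, Fmap]
  · fin_cases e <;> simp [rose, Fmap, Lv.map]
  · fin_cases e <;> simp [rose, Fmap, Lv.map]

theorem rose_unrose (F : Fam k G2 G2.IsReg A) : rose k (unrose F) = F := by
  refine Fam.ext' (fun a => ?_) (fun e => ?_) (fun e => ?_)
  · exact (p_one F a).symm
  · fin_cases e <;> rfl
  · fin_cases e <;> rfl

theorem rose_inj {L M : Lv A} (h : rose k L = rose k M) : L = M := by
  have hx := congrArg (fun F : Fam k G2 G2.IsReg A => F.x) h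
  have hy := congrArg (fun F : Fam k G2 G2.IsReg A => F.y) h
  exact Lv.ext' (congrFun hx 0) (congrFun hx 1) (congrFun hy 0) (congrFun hy 1)

theorem quot_map (φ : A →ₐ[k] C) (L M : Lv A) :
    quot (L.map φ) (M.map φ) = Units.map (φ : A →* C) (quot L M) := by
  refine Units.ext ?_
  show φ M.x1 * φ L.y1 + φ M.x2 * φ L.y2 = φ (M.x1 * L.y1 + M.x2 * L.y2)
  rw [map_add, map_mul, map_mul]

end Rose

/-- `U2` is the free product of `L_2` and `k[t, 1/t]` -/
theorem free_plus (k : Type u) [Field k] :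
    IsFreeUnit (k := k) (rose k (uL k 0)).lift (quot (uL k 0) (uL k 1)) := by
  intro C _ _ f b
  have hF : ∀ φ : U2 k →ₐ[k] C, φ.comp (rose k (uL k 0)).lift = f ↔
      Fmap φ (rose k (uL k 0)) = Fmap f (taut k G2 G2.IsReg) := by
    intro φ
    constructor
    · intro h
      refine Fam.ext' (fun a => ?_) (fun e => ?_) (fun e => ?_)
      · show φ ((rose k (uL k 0)).p a) = f (vt a)
        rw [← h, AlgHom.comp_apply, lift_vt]
      · show φ ((rose k (uL k 0)).x e) = f (ed e)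
        rw [← h, AlgHom.comp_apply, lift_ed]
      · show φ ((rose k (uL k 0)).y e) = f (gh e)
        rw [← h, AlgHom.comp_apply, lift_gh]
    · intro h
      refine hom_ext (fun a => ?_) (fun e => ?_) (fun e => ?_)
      · rw [AlgHom.comp_apply, lift_vt]
        exact congrArg (fun F : Fam k G2 G2.IsReg C => F.p a) h
      · rw [AlgHom.comp_apply, lift_ed]
        exact congrArg (fun F : Fam k G2 G2.IsReg C => F.x e) h
      · rw [AlgHom.comp_apply, lift_gh]
        exact congrArg (fun F : Fam k G2 G2.IsReg C => F.y e) h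
  have hb : ∀ φ : U2 k →ₐ[k] C, φ (quot (uL k 0) (uL k 1) : U2 k) = b ↔
      Units.map (φ : U2 k →* C) (quot (uL k 0) (uL k 1)) = b :=
    fun φ => ⟨fun h => Units.ext h, fun h => congrArg Units.val h⟩
  refine ⟨lift2 ![unrose (Fmap f (taut k G2 G2.IsReg)),
    twist (unrose (Fmap f (taut k G2 G2.IsReg))) b], ⟨?_, ?_⟩, ?_⟩
  · rw [hF, ← rose_map, lift2_uL]
    exact rose_unrose _
  · rw [hb, ← quot_map, lift2_uL, lift2_uL]
    exact quot_twist _ b
  · rintro φ ⟨h1, h2⟩
    rw [hF, ← rose_map] at h1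
    rw [hb, ← quot_map] at h2
    have h3 : (uL k 0).map φ = unrose (Fmap f (taut k G2 G2.IsReg)) :=
      rose_inj (k := k) (by rw [h1, rose_unrose])
    refine ext2 (fun i => ?_)
    rw [lift2_uL]
    fin_cases i
    · exact h3
    · show (uL k 1).map φ = twist (unrose (Fmap f (taut k G2 G2.IsReg))) b
      rw [← h3, ← h2, twist_quot]

theorem main (k : Type u) [Field k] : ∃ (U : Type u) (_ : Ring U) (_ : Algebra k U)
    (i : LPA k G2 →ₐ[k] U) (s : Uˣ) (j : LPA k (splice G2 0) →ₐ[k] U) (t : Uˣ),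
    IsFreeUnit i s ∧ IsFreeUnit j t :=
  ⟨U2 k, inferInstance, inferInstance, _, _, _, _, free_plus k, free_minus k⟩

end Pool.Agent.SKZ
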